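import Mathlib

set_option autoImplicit false
set_option linter.unusedVariables false
set_option linter.unusedSectionVars false

namespace Pool.Agent.Helper340.Cliques

open Finset

section comb
variable {q : ℕ}

/-- ordered pairs of indices inside `I` -/
def prs (I : Finset (Fin q)) : Finset (Fin q × Fin q) :=
  (I ×ˢ I).filter (fun p => p.1 < p.2)

lemma two_mul_card_prs (I : Finset (Fin q)) : 2 * (prs I).card ≤ I.card * I.card - I.card := by
  rw [← Finset.offDiag_card]
  have h1 : (prs I).card = ((prs I).image Prod.swap).card :=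
    (Finset.card_image_of_injective _ Prod.swap_injective).symm
  have hdis : Disjoint (prs I) ((prs I).image Prod.swap) := by
    rw [Finset.disjoint_left]
    intro p hp hp'
    simp only [prs, mem_filter, mem_product, mem_image, Prod.exists] at hp hp'
    obtain ⟨a, b, ⟨_, hab⟩, rfl⟩ := hp'
    exact absurd hp.2 (not_lt.mpr hab.le)
  have hsub : (prs I) ∪ ((prs I).image Prod.swap) ⊆ I.offDiag := by
    intro p hp
    simp only [prs, mem_union, mem_filter, mem_product, mem_image, Prod.exists, mem_offDiag] at hp ⊢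
    rcases hp with hp | ⟨a, b, ⟨⟨ha, hb⟩, hab⟩, rfl⟩
    · exact ⟨hp.1.1, hp.1.2, ne_of_lt hp.2⟩
    · exact ⟨hb, ha, (ne_of_lt hab).symm⟩
  have := Finset.card_le_card hsub
  rw [Finset.card_union_of_disjoint hdis, ← h1] at this
  omega

lemma card_prs_le {s : ℕ} (hq : q + 2 ≤ 6 * s) (I : Finset (Fin q)) (hI : 3 ≤ I.card) :
    (prs I).card ≤ 3 + (I.card - 3) * (3 * s) := by
  have h := two_mul_card_prs I
  have hk : I.card ≤ q := by simpa using Finset.card_le_univ I
  obtain ⟨k, hk'⟩ : ∃ k, I.card = k + 3 := ⟨I.card - 3, by omega⟩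
  rw [hk'] at h hk ⊢
  have h1 : (k + 3) * (k + 3) - (k + 3) = k * (k + 5) + 6 := by
    have : (k + 3) * (k + 3) = (k * (k + 5) + 6) + (k + 3) := by ring
    omega
  rw [h1] at h
  have h2 : k * (k + 5) ≤ k * (6 * s) := Nat.mul_le_mul_left k (by omega)
  have h3 : k + 3 - 3 = k := by omega
  rw [h3]
  have h4 : k * (6 * s) = 2 * (k * (3 * s)) := by ring
  omega

end comb

section sumphi
variable {q n : ℕ}

/-- agreement set -/
def agr (S : Fin q → Finset (Fin n)) (φ : Fin q → Fin n) : Finset (Fin q) :=
  Finset.univ.filter (fun i => φ i ∈ S i)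

lemma sum_prod_le (S : Fin q → Finset (Fin n)) (hS : ∀ i, (S i).card ≤ 3) (r : ℝ) (hr : 1 ≤ r)
    (T : Finset (Fin q)) :
    ∑ φ : Fin q → Fin n, ∏ i, (if i ∈ T then (if φ i ∈ S i then (1 : ℝ) else 0)
        else (if φ i ∈ S i then r else 1)) ≤ 3 ^ T.card * (n + 3 * r) ^ (q - T.card) := by
  have h1 : ∑ φ : Fin q → Fin n, ∏ i, (if i ∈ T then (if φ i ∈ S i then (1 : ℝ) else 0)
        else (if φ i ∈ S i then r else 1)) =
      ∏ i, ∑ a : Fin n, (if i ∈ T then (if a ∈ S i then (1 : ℝ) else 0)
        else (if a ∈ S i then r else 1)) := by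
    rw [Finset.prod_univ_sum, Fintype.piFinset_univ]
  rw [h1]
  have h2 : ∏ i, ∑ a : Fin n, (if i ∈ T then (if a ∈ S i then (1 : ℝ) else 0)
        else (if a ∈ S i then r else 1)) ≤ ∏ i : Fin q, (if i ∈ T then (3 : ℝ) else (n + 3 * r)) := by
    apply Finset.prod_le_prod
    · intro i _
      apply Finset.sum_nonneg
      intro a _
      split_ifs <;> linarith
    · intro i _
      by_cases hi : i ∈ T
      · simp only [hi, if_true]
        rw [Finset.sum_ite_mem, Finset.univ_inter, Finset.sum_const, nsmul_eq_mul, mul_one]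
        exact_mod_cast hS i
      · simp only [hi, if_false]
        have h3 : ∀ a : Fin n, (if a ∈ S i then r else (1 : ℝ)) = 1 + (if a ∈ S i then (r - 1) else 0) := by
          intro a; split_ifs <;> ring
        simp_rw [h3]
        rw [Finset.sum_add_distrib, Finset.sum_ite_mem, Finset.univ_inter, Finset.sum_const,
          Finset.sum_const, nsmul_eq_mul, nsmul_eq_mul, mul_one, Finset.card_univ, Fintype.card_fin]
        have h4 : ((S i).card : ℝ) ≤ 3 := by exact_mod_cast hS i
        nlinarith
  refine h2.trans (le_of_eq ?_)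
  rw [Finset.prod_ite, Finset.prod_const, Finset.prod_const]
  congr 2
  · congr 1; ext i; simp
  · have : (Finset.univ.filter (fun i => i ∉ T)) = Tᶜ := by ext i; simp
    rw [this, Finset.card_compl, Fintype.card_fin]

lemma sum_agr_le (S : Fin q → Finset (Fin n)) (hS : ∀ i, (S i).card ≤ 3) (s : ℕ)
    (hq : q + 2 ≤ 6 * s) :
    ∑ φ : Fin q → Fin n, (if 3 ≤ (agr S φ).card then (2 : ℝ) ^ (prs (agr S φ)).card else 0)
      ≤ (q.choose 3) * (8 * (27 * (n + 3 * (8 : ℝ) ^ s) ^ (q - 3))) := by
  set r : ℝ := (8 : ℝ) ^ s with hr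
  have hr1 : 1 ≤ r := one_le_pow₀ (by norm_num)
  have hpt : ∀ φ : Fin q → Fin n,
      (if 3 ≤ (agr S φ).card then (2 : ℝ) ^ (prs (agr S φ)).card else 0) ≤
      ∑ T ∈ Finset.powersetCard 3 (Finset.univ : Finset (Fin q)),
        8 * ∏ i, (if i ∈ T then (if φ i ∈ S i then (1 : ℝ) else 0)
        else (if φ i ∈ S i then r else 1)) := by
    intro φ
    have hnn : ∀ T : Finset (Fin q), 0 ≤ 8 * ∏ i, (if i ∈ T then (if φ i ∈ S i then (1 : ℝ) else 0)
        else (if φ i ∈ S i then r else 1)) := by
      intro T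
      apply mul_nonneg (by norm_num)
      apply Finset.prod_nonneg
      intro i _
      split_ifs <;> linarith
    split_ifs with h
    · obtain ⟨T, hT, hTc⟩ := Finset.exists_subset_card_eq h
      have hmem : T ∈ Finset.powersetCard 3 (Finset.univ : Finset (Fin q)) := by
        rw [Finset.mem_powersetCard]; exact ⟨Finset.subset_univ _, hTc⟩
      refine le_trans ?_ (Finset.single_le_sum (fun T _ => hnn T) hmem)
      have hprod : ∏ i, (if i ∈ T then (if φ i ∈ S i then (1 : ℝ) else 0)
        else (if φ i ∈ S i then r else 1)) = r ^ ((agr S φ).card - 3) := by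
        have e1 : ∀ i, (if i ∈ T then (if φ i ∈ S i then (1 : ℝ) else 0)
          else (if φ i ∈ S i then r else 1)) = if i ∈ agr S φ \ T then r else 1 := by
          intro i
          by_cases hi : i ∈ T
          · have hi2 : φ i ∈ S i := by
              have := hT hi
              simpa [agr] using this
            simp [hi, hi2]
          · by_cases hi2 : φ i ∈ S i
            · simp [hi, hi2, agr]
            · simp [hi, hi2, agr]
        rw [Finset.prod_congr rfl (fun i _ => e1 i), Finset.prod_ite_mem, Finset.univ_inter,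
          Finset.prod_const, Finset.card_sdiff_of_subset hT, hTc]
      rw [hprod]
      have h2 := card_prs_le hq (agr S φ) h
      calc (2 : ℝ) ^ (prs (agr S φ)).card ≤ 2 ^ (3 + ((agr S φ).card - 3) * (3 * s)) :=
            pow_le_pow_right₀ (by norm_num) h2
        _ = 8 * r ^ ((agr S φ).card - 3) := by
            rw [hr, pow_add, ← pow_mul, show (8 : ℝ) = 2 ^ 3 by norm_num, ← pow_mul]
            congr 2
            ring
    · exact Finset.sum_nonneg (fun T _ => hnn T)
  refine (Finset.sum_le_sum (fun φ _ => hpt φ)).trans ?_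
  rw [Finset.sum_comm]
  calc ∑ T ∈ Finset.powersetCard 3 (Finset.univ : Finset (Fin q)), ∑ φ : Fin q → Fin n,
        8 * ∏ i, (if i ∈ T then (if φ i ∈ S i then (1 : ℝ) else 0)
        else (if φ i ∈ S i then r else 1))
      ≤ ∑ T ∈ Finset.powersetCard 3 (Finset.univ : Finset (Fin q)),
        8 * (27 * (n + 3 * r) ^ (q - 3)) := by
        apply Finset.sum_le_sum
        intro T hT
        rw [Finset.mem_powersetCard] at hT
        rw [← Finset.mul_sum]
        have := sum_prod_le S hS r hr1 T
        rw [hT.2] at this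
        norm_num at this ⊢
        linarith
    _ = (q.choose 3) * (8 * (27 * (n + 3 * r) ^ (q - 3))) := by
        rw [Finset.sum_const, Finset.card_powersetCard, Finset.card_univ, Fintype.card_fin,
          nsmul_eq_mul]

end sumphi

end Pool.Agent.Helper340.Cliques
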