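import Mathlib

set_option autoImplicit false
set_option linter.unusedVariables false
set_option linter.unusedSectionVars false

namespace Pool.Agent.Helper340.Criterion

open Finset

/-- weight of a set `s` when Maker owns `X` and the points of `Y` are blocked. -/
noncomputable def wt {E : Type*} [DecidableEq E] (X Y s : Finset E) : ℝ :=
  if Disjoint s Y then (1 / 2 : ℝ) ^ ((s \ X).card) else 0

section basic
variable {E : Type*} [DecidableEq E]

lemma wt_nonneg (X Y s : Finset E) : 0 ≤ wt X Y s := by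
  unfold wt; split_ifs <;> positivity

lemma wt_insert_insert {X Y s : Finset E} {x y : E} (hxX : x ∉ X) (hxY : x ∉ Y)
    (hyX : y ∉ X) (hyY : y ∉ Y) (hxy : y ≠ x) :
    wt (insert x X) (insert y Y) s =
      wt X Y s + (if x ∈ s then wt X Y s else 0) - (if y ∈ s then wt X Y s else 0)
        - (if x ∈ s ∧ y ∈ s then wt X Y s else 0) := by
  have hkey : x ∈ s → (1 / 2 : ℝ) ^ ((s \ insert x X).card) = 2 * (1 / 2 : ℝ) ^ ((s \ X).card) := by
    intro hx
    have h1 : s \ insert x X = (s \ X).erase x := by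
      ext z; simp only [mem_sdiff, mem_insert, mem_erase, not_or]; tauto
    have hmem : x ∈ s \ X := by simp [hx, hxX]
    have h2 : (s \ X).card = ((s \ X).erase x).card + 1 := by
      rw [card_erase_of_mem hmem]
      have : 0 < (s \ X).card := card_pos.mpr ⟨x, hmem⟩
      omega
    rw [h1, h2, pow_succ]; ring
  have hkey2 : x ∉ s → (1 / 2 : ℝ) ^ ((s \ insert x X).card) = (1 / 2 : ℝ) ^ ((s \ X).card) := by
    intro hx
    have h1 : s \ insert x X = s \ X := by
      ext z; simp only [mem_sdiff, mem_insert, not_or]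
      constructor
      · rintro ⟨a, b, c⟩; exact ⟨a, c⟩
      · rintro ⟨a, b⟩; refine ⟨a, ?_, b⟩; rintro rfl; exact hx a
    rw [h1]
  have hdis : Disjoint s (insert y Y) ↔ y ∉ s ∧ Disjoint s Y := by
    rw [disjoint_insert_right]
  unfold wt
  by_cases hD : Disjoint s Y
  · by_cases hy : y ∈ s
    · have : ¬ Disjoint s (insert y Y) := by rw [hdis]; tauto
      by_cases hx : x ∈ s
      · simp [this, hD, hy, hx]
      · simp [this, hD, hy, hx]
    · have : Disjoint s (insert y Y) := by rw [hdis]; exact ⟨hy, hD⟩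
      by_cases hx : x ∈ s
      · simp only [this, hD, hy, hx, if_true, if_false, and_false]
        rw [hkey hx]; ring
      · simp only [this, hD, hy, hx, if_true, if_false, and_false]
        rw [hkey2 hx]; ring
  · have : ¬ Disjoint s (insert y Y) := by rw [hdis]; tauto
    simp [this, hD]

lemma wt_insert_left {X Y s : Finset E} {x : E} (hxX : x ∉ X) :
    wt X Y s ≤ wt (insert x X) Y s := by
  unfold wt
  split_ifs with h
  · apply pow_le_pow_of_le_one (by norm_num) (by norm_num)
    exact card_le_card (sdiff_subset_sdiff (le_refl _) (subset_insert _ _))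
  · exact le_refl _

end basic

section game
variable {E : Type*} [DecidableEq E] {ι : Type*} [Fintype ι] [DecidableEq ι]

/-- union of four members -/
def un (A : ι → Finset E) (τ : Fin 4 → ι) : Finset E := Finset.univ.biUnion (fun a => A (τ a))

open Classical in
/-- four-tuples whose members share at least two points -/
noncomputable def four (A : ι → Finset E) : Finset (Fin 4 → ι) :=
  Finset.univ.filter (fun τ => ∃ x y : E, x ≠ y ∧ ∀ a, x ∈ A (τ a) ∧ y ∈ A (τ a))

lemma mem_four (A : ι → Finset E) (τ : Fin 4 → ι) :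
    τ ∈ four A ↔ ∃ x y : E, x ≠ y ∧ ∀ a, x ∈ A (τ a) ∧ y ∈ A (τ a) := by
  unfold four; simp

noncomputable def TF (A : ι → Finset E) (X Y : Finset E) : ℝ := ∑ i, wt X Y (A i)

noncomputable def TG (A : ι → Finset E) (X Y : Finset E) : ℝ := ∑ τ ∈ four A, wt X Y (un A τ)

lemma TG_nonneg (A : ι → Finset E) (X Y : Finset E) : 0 ≤ TG A X Y :=
  Finset.sum_nonneg (fun _ _ => wt_nonneg _ _ _)

noncomputable def TFp (A : ι → Finset E) (X Y : Finset E) (u : E) : ℝ :=
  ∑ i, if u ∈ A i then wt X Y (A i) else 0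

noncomputable def TGp (A : ι → Finset E) (X Y : Finset E) (u : E) : ℝ :=
  ∑ τ ∈ four A, if u ∈ un A τ then wt X Y (un A τ) else 0

noncomputable def TFpp (A : ι → Finset E) (X Y : Finset E) (u v : E) : ℝ :=
  ∑ i, if u ∈ A i ∧ v ∈ A i then wt X Y (A i) else 0

lemma TFpp_pow_le (A : ι → Finset E) (X Y : Finset E) {u v : E} (huv : u ≠ v) :
    (TFpp A X Y u v) ^ 4 ≤ TG A X Y := by
  unfold TFpp TG
  rw [Fintype.sum_pow]
  rw [← Finset.sum_subset (Finset.subset_univ (four A)) (by
    intro τ _ hτ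
    by_contra hne
    apply hτ
    rw [mem_four]
    refine ⟨u, v, huv, ?_⟩
    intro a
    by_contra hcon
    apply hne
    apply Finset.prod_eq_zero (Finset.mem_univ a)
    rw [if_neg hcon])]
  apply Finset.sum_le_sum
  intro τ _
  by_cases hall : ∀ a, Disjoint (A (τ a)) Y
  · have hU : Disjoint (un A τ) Y := by
      unfold un; rw [Finset.disjoint_biUnion_left]; intro a _; exact hall a
    have h1 : ∏ a, (if u ∈ A (τ a) ∧ v ∈ A (τ a) then wt X Y (A (τ a)) else 0)
        ≤ ∏ a, (1 / 2 : ℝ) ^ ((A (τ a) \ X).card) := by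
      apply Finset.prod_le_prod
      · intro a _; split_ifs
        · exact wt_nonneg _ _ _
        · exact le_refl _
      · intro a _
        split_ifs
        · unfold wt; rw [if_pos (hall a)]
        · positivity
    refine h1.trans ?_
    unfold wt
    rw [if_pos hU, Finset.prod_pow_eq_pow_sum]
    apply pow_le_pow_of_le_one (by norm_num) (by norm_num)
    have h2 : un A τ \ X ⊆ Finset.univ.biUnion (fun a => A (τ a) \ X) := by
      intro z hz
      unfold un at hz
      simp only [Finset.mem_sdiff, Finset.mem_biUnion, Finset.mem_univ, true_and] at hz ⊢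
      obtain ⟨⟨a, ha⟩, hb⟩ := hz
      exact ⟨a, ha, hb⟩
    exact (Finset.card_le_card h2).trans Finset.card_biUnion_le
  · push Not at hall
    obtain ⟨a, ha⟩ := hall
    have h1 : ∏ a, (if u ∈ A (τ a) ∧ v ∈ A (τ a) then wt X Y (A (τ a)) else 0) = 0 := by
      apply Finset.prod_eq_zero (Finset.mem_univ a)
      split_ifs
      · unfold wt; rw [if_neg ha]
      · rfl
    rw [h1]; exact wt_nonneg _ _ _

lemma TFpp_nonneg (A : ι → Finset E) (X Y : Finset E) (u v : E) : 0 ≤ TFpp A X Y u v := by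
  unfold TFpp
  apply Finset.sum_nonneg; intro i _; split_ifs
  · exact wt_nonneg _ _ _
  · exact le_refl _

lemma TFpp_le (A : ι → Finset E) (X Y : Finset E) {u v : E} (huv : u ≠ v) {δ : ℝ} (hδ : 0 < δ) :
    TFpp A X Y u v ≤ δ + TG A X Y / δ ^ 3 := by
  have h4 := TFpp_pow_le A X Y huv
  have h0 := TFpp_nonneg A X Y u v
  have hG := TG_nonneg A X Y
  by_cases h : TFpp A X Y u v ≤ δ
  · have : 0 ≤ TG A X Y / δ ^ 3 := by positivity
    linarith
  · push Not at h
    have h1 : TFpp A X Y u v ≤ TG A X Y / δ ^ 3 := by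
      rw [le_div_iff₀ (by positivity)]
      refine le_trans ?_ h4
      have h3 : δ ^ 3 ≤ (TFpp A X Y u v) ^ 3 := pow_le_pow_left₀ hδ.le h.le 3
      calc TFpp A X Y u v * δ ^ 3 ≤ TFpp A X Y u v * (TFpp A X Y u v) ^ 3 :=
            mul_le_mul_of_nonneg_left h3 h0
        _ = (TFpp A X Y u v) ^ 4 := by ring
    linarith

lemma TF_insert_insert (A : ι → Finset E) {X Y : Finset E} {x y : E} (hxX : x ∉ X) (hxY : x ∉ Y)
    (hyX : y ∉ X) (hyY : y ∉ Y) (hxy : y ≠ x) :
    TF A (insert x X) (insert y Y) = TF A X Y + TFp A X Y x - TFp A X Y y - TFpp A X Y x y := by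
  unfold TF TFp TFpp
  rw [← Finset.sum_add_distrib, ← Finset.sum_sub_distrib, ← Finset.sum_sub_distrib]
  apply Finset.sum_congr rfl
  intro i _
  exact wt_insert_insert hxX hxY hyX hyY hxy

lemma TG_insert_insert (A : ι → Finset E) {X Y : Finset E} {x y : E} (hxX : x ∉ X) (hxY : x ∉ Y)
    (hyX : y ∉ X) (hyY : y ∉ Y) (hxy : y ≠ x) :
    TG A (insert x X) (insert y Y) ≤ TG A X Y + TGp A X Y x - TGp A X Y y := by
  unfold TG TGp
  rw [← Finset.sum_add_distrib, ← Finset.sum_sub_distrib]
  apply Finset.sum_le_sum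
  intro τ _
  rw [wt_insert_insert hxX hxY hyX hyY hxy]
  have : 0 ≤ (if x ∈ un A τ ∧ y ∈ un A τ then wt X Y (un A τ) else 0) := by
    split_ifs
    · exact wt_nonneg _ _ _
    · exact le_refl _
  linarith

/-- the potential; `k` is the number of free points of the board -/
noncomputable def pot (A : ι → Finset E) (δ : ℝ) (k : ℕ) (X Y : Finset E) : ℝ :=
  TF A X Y - k * (TG A X Y / δ ^ 3 + δ)

lemma step (A : ι → Finset E) (D : Finset E) {δ : ℝ} (hδ : 0 < δ) (X Y : Finset E) (k : ℕ)
    (hk : (D \ (X ∪ Y)).card = k + 1) (hpot : 0 < pot A δ (k + 1) X Y) :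
    ∃ x ∈ D \ (X ∪ Y), (∀ y ∈ D \ (X ∪ Y), y ≠ x → ∀ k' ≤ k,
        0 < pot A δ k' (insert x X) (insert y Y)) ∧
      (k = 0 → 0 < pot A δ 0 (insert x X) Y) := by
  set U := D \ (X ∪ Y) with hU
  have hne : U.Nonempty := by rw [← Finset.card_pos]; omega
  set lam : ℝ := (k : ℝ) / δ ^ 3 with hlam
  obtain ⟨x, hxU, hxmax⟩ := Finset.exists_max_image U (fun u => TFp A X Y u - lam * TGp A X Y u) hne
  refine ⟨x, hxU, ?_, ?_⟩
  · intro y hyU hyx k' hk'
    rw [hU, Finset.mem_sdiff, Finset.mem_union, not_or] at hxU hyU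
    have hmax := hxmax y (by rw [hU, Finset.mem_sdiff, Finset.mem_union, not_or]; exact hyU)
    have e1 := TF_insert_insert A hxU.2.1 hxU.2.2 hyU.2.1 hyU.2.2 hyx
    have e2 := TG_insert_insert A hxU.2.1 hxU.2.2 hyU.2.1 hyU.2.2 hyx
    have e3 := TFpp_le A X Y (Ne.symm hyx) hδ
    have hG' := TG_nonneg A (insert x X) (insert y Y)
    have hlam0 : 0 ≤ lam := by rw [hlam]; positivity
    have e4 : pot A δ k (insert x X) (insert y Y) ≤ pot A δ k' (insert x X) (insert y Y) := by
      unfold pot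
      have hkk : (k' : ℝ) ≤ (k : ℝ) := by exact_mod_cast hk'
      have : 0 ≤ TG A (insert x X) (insert y Y) / δ ^ 3 + δ := by positivity
      nlinarith
    refine lt_of_lt_of_le ?_ e4
    unfold pot at hpot ⊢
    have e5 : (k : ℝ) * (TG A (insert x X) (insert y Y) / δ ^ 3 + δ)
        = lam * TG A (insert x X) (insert y Y) + k * δ := by
      rw [hlam]; field_simp
    have e6 : ((k + 1 : ℕ) : ℝ) * (TG A X Y / δ ^ 3 + δ)
        = lam * TG A X Y + TG A X Y / δ ^ 3 + (k + 1) * δ := by
      rw [hlam]; push_cast; field_simp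
    rw [e5, e1]
    rw [e6] at hpot
    have e7 : lam * TG A (insert x X) (insert y Y)
        ≤ lam * (TG A X Y + TGp A X Y x - TGp A X Y y) :=
      mul_le_mul_of_nonneg_left e2 hlam0
    nlinarith
  · intro hk0
    subst hk0
    rw [hU, Finset.mem_sdiff, Finset.mem_union, not_or] at hxU
    unfold pot at hpot ⊢
    have h1 : TF A X Y ≤ TF A (insert x X) Y := by
      unfold TF; apply Finset.sum_le_sum; intro i _; exact wt_insert_left hxU.2.1
    have hG := TG_nonneg A X Y
    have : 0 ≤ ((0 + 1 : ℕ) : ℝ) * (TG A X Y / δ ^ 3 + δ) := by positivity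
    push_cast at hpot this ⊢
    linarith

lemma finish (A : ι → Finset E) (D : Finset E) (hA : ∀ i, A i ⊆ D) {δ : ℝ} (X Y : Finset E)
    (hk : (D \ (X ∪ Y)).card = 0) (hpot : 0 < pot A δ 0 X Y) : ∃ i, A i ⊆ X := by
  unfold pot at hpot
  simp only [Nat.cast_zero, zero_mul, sub_zero] at hpot
  unfold TF at hpot
  obtain ⟨i, _, hi⟩ := Finset.exists_lt_of_sum_lt (f := fun _ : ι => (0 : ℝ)) (g := fun i => wt X Y (A i))
    (s := Finset.univ) (by simpa using hpot)
  refine ⟨i, ?_⟩
  have hd : Disjoint (A i) Y := by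
    by_contra h
    unfold wt at hi
    rw [if_neg h] at hi
    exact lt_irrefl _ hi
  rw [Finset.card_eq_zero] at hk
  intro z hz
  by_contra hzX
  have hzY : z ∉ Y := Finset.disjoint_left.mp hd hz
  have : z ∈ D \ (X ∪ Y) := by
    rw [Finset.mem_sdiff, Finset.mem_union, not_or]; exact ⟨hA i hz, hzX, hzY⟩
  rw [hk] at this
  exact absurd this (Finset.notMem_empty z)

end game

end Pool.Agent.Helper340.Criterion
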