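import Mathlib
import Pool.Agent.Helper340.Criterion
import Pool.Agent.Helper340.Cliques

set_option autoImplicit false
set_option linter.unusedVariables false
set_option linter.unusedSectionVars false

namespace Pool.Agent.Helper340.Board

open Finset Pool.Agent.Helper340.Criterion Pool.Agent.Helper340.Cliques

variable {V : Type*} [LinearOrder V] {q n : ℕ}

/-- edge set of the transversal clique given by `φ` -/
def cl (v : Fin q → Fin n → V) (φ : Fin q → Fin n) : Finset (V × V) :=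
  (prs (Finset.univ : Finset (Fin q))).image (fun p => (v p.1 (φ p.1), v p.2 (φ p.2)))

lemma mem_cl {v : Fin q → Fin n → V} {φ : Fin q → Fin n} {e : V × V} :
    e ∈ cl v φ ↔ ∃ i j : Fin q, i < j ∧ e = (v i (φ i), v j (φ j)) := by
  unfold cl prs
  simp only [mem_image, mem_filter, mem_product, mem_univ, true_and, Prod.exists]
  constructor
  · rintro ⟨a, b, hab, rfl⟩; exact ⟨a, b, hab, rfl⟩
  · rintro ⟨a, b, hab, rfl⟩; exact ⟨a, b, hab, rfl⟩

section
variable (v : Fin q → Fin n → V) (hm : ∀ i j a b, i < j → v i a < v j b)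
  (hi : ∀ i a b, v i a = v i b → a = b)
include hm hi

lemma v_eq {i j : Fin q} {a b : Fin n} (h : v i a = v j b) : i = j ∧ a = b := by
  rcases lt_trichotomy i j with hij | hij | hij
  · exact absurd h (ne_of_lt (hm i j a b hij))
  · subst hij; exact ⟨rfl, hi _ _ _ h⟩
  · exact absurd h.symm (ne_of_lt (hm j i b a hij))

lemma card_cl (φ : Fin q → Fin n) : (cl v φ).card = (prs (Finset.univ : Finset (Fin q))).card := by
  unfold cl
  apply Finset.card_image_of_injective
  rintro ⟨a, b⟩ ⟨c, d⟩ h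
  simp only [Prod.mk.injEq] at h
  rw [(v_eq v hm hi h.1).1, (v_eq v hm hi h.2).1]

lemma card_sdiff_ge (O : Finset (V × V)) (S : Fin q → Finset (Fin n)) (φ : Fin q → Fin n)
    (hO : ∀ i j a b, i < j → (v i a, v j b) ∈ O → a ∈ S i ∧ b ∈ S j) :
    (prs (Finset.univ : Finset (Fin q))).card ≤ (cl v φ \ O).card + (prs (agr S φ)).card := by
  have h1 : cl v φ ∩ O ⊆ (prs (agr S φ)).image (fun p => (v p.1 (φ p.1), v p.2 (φ p.2))) := by
    intro e he
    rw [mem_inter, mem_cl] at he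
    obtain ⟨⟨i, j, hij, rfl⟩, he2⟩ := he
    have := hO i j _ _ hij he2
    rw [mem_image]
    refine ⟨(i, j), ?_, rfl⟩
    simp only [prs, mem_filter, mem_product, agr, mem_univ, true_and]
    exact ⟨this, hij⟩
  have h2 := (Finset.card_le_card h1).trans Finset.card_image_le
  have h3 := Finset.card_sdiff_add_card_inter (cl v φ) O
  rw [card_cl v hm hi φ] at h3
  omega

/-- base weight of one clique -/
noncomputable def tt (q n : ℕ) : ℝ := (n : ℝ) ^ q * (1 / 2) ^ (prs (Finset.univ : Finset (Fin q))).card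

noncomputable def kap (q n s : ℕ) : ℝ :=
  (1 / 2) ^ (prs (Finset.univ : Finset (Fin q))).card *
    ((q.choose 3) * (8 * (27 * (n + 3 * (8 : ℝ) ^ s) ^ (q - 3))))

lemma sum_O_le (O : Finset (V × V)) (S : Fin q → Finset (Fin n)) (hS : ∀ i, (S i).card ≤ 3)
    (hO : ∀ i j a b, i < j → (v i a, v j b) ∈ O → a ∈ S i ∧ b ∈ S j) (s : ℕ)
    (hq : q + 2 ≤ 6 * s) :
    ∑ φ : Fin q → Fin n, (if 3 ≤ (agr S φ).card then (1 / 2 : ℝ) ^ (cl v φ \ O).card else 0)
      ≤ kap q n s := by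
  have h := sum_agr_le S hS s hq
  unfold kap
  refine le_trans ?_ (mul_le_mul_of_nonneg_left h (by positivity))
  rw [Finset.mul_sum]
  apply Finset.sum_le_sum
  intro φ _
  split_ifs with h3
  · have h4 := card_sdiff_ge v hm hi O S φ hO
    have h5 : (1 / 2 : ℝ) ^ (cl v φ \ O).card * (1 / 2) ^ (prs (agr S φ)).card ≤
        (1 / 2 : ℝ) ^ (prs (Finset.univ : Finset (Fin q))).card := by
      rw [← pow_add]
      exact pow_le_pow_of_le_one (by norm_num) (by norm_num) h4
    have h6 : (1 / 2 : ℝ) ^ (prs (agr S φ)).card * 2 ^ (prs (agr S φ)).card = 1 := by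
      rw [← mul_pow]; norm_num
    calc (1 / 2 : ℝ) ^ (cl v φ \ O).card
        = ((1 / 2 : ℝ) ^ (cl v φ \ O).card * (1 / 2) ^ (prs (agr S φ)).card)
            * 2 ^ (prs (agr S φ)).card := by rw [mul_assoc, h6, mul_one]
      _ ≤ _ := mul_le_mul_of_nonneg_right h5 (by positivity)
  · simp

lemma TF_empty : TF (cl v) ∅ ∅ = tt q n := by
  unfold TF tt wt
  simp only [disjoint_empty_right, if_true, sdiff_empty]
  rw [Finset.sum_congr rfl (fun φ _ => by rw [card_cl v hm hi φ]), Finset.sum_const,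
    Finset.card_univ, Fintype.card_fun, Fintype.card_fin, Fintype.card_fin, nsmul_eq_mul]
  push_cast; ring

lemma mem_cl_imp (φ : Fin q → Fin n) {i j : Fin q} {a b : Fin n}
    (h : (v i a, v j b) ∈ cl v φ) : a = φ i ∧ b = φ j := by
  rw [mem_cl] at h
  obtain ⟨i', j', hij, he⟩ := h
  simp only [Prod.mk.injEq] at he
  obtain ⟨e1, e2⟩ := v_eq v hm hi he.1
  obtain ⟨e3, e4⟩ := v_eq v hm hi he.2
  subst e1; subst e3
  exact ⟨e2, e4⟩

/-- all four cliques agree on at least three coordinates -/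
lemma four_agree (τ : Fin 4 → (Fin q → Fin n)) (hτ : τ ∈ four (cl v)) :
    ∃ T : Finset (Fin q), 3 ≤ T.card ∧ ∀ i ∈ T, ∀ a b, τ a i = τ b i := by
  rw [mem_four] at hτ
  obtain ⟨x, y, hxy, hall⟩ := hτ
  obtain ⟨i, j, hij, hx⟩ := mem_cl.mp (hall 0).1
  obtain ⟨k, l, hkl, hy⟩ := mem_cl.mp (hall 0).2
  have hi' : ∀ a, τ a i = τ 0 i ∧ τ a j = τ 0 j := by
    intro a
    have := (hall a).1
    rw [hx] at this
    obtain ⟨h1, h2⟩ := mem_cl_imp v hm hi (τ a) this
    exact ⟨h1.symm, h2.symm⟩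
  have hk' : ∀ a, τ a k = τ 0 k ∧ τ a l = τ 0 l := by
    intro a
    have := (hall a).2
    rw [hy] at this
    obtain ⟨h1, h2⟩ := mem_cl_imp v hm hi (τ a) this
    exact ⟨h1.symm, h2.symm⟩
  have hne : ¬ (i = k ∧ j = l) := by
    rintro ⟨rfl, rfl⟩
    exact hxy (hx.trans hy.symm)
  refine ⟨{i, j, k, l}, ?_, ?_⟩
  · by_contra hlt
    push Not at hlt
    have hsub : ({i, j} : Finset (Fin q)) ⊆ {i, j, k, l} := by
      intro z hz; simp only [mem_insert, mem_singleton] at hz ⊢; tauto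
    have h2 : ({i, j} : Finset (Fin q)).card = 2 := Finset.card_pair (ne_of_lt hij)
    have heq : ({i, j} : Finset (Fin q)) = {i, j, k, l} :=
      Finset.eq_of_subset_of_card_le hsub (by omega)
    have hk1 : k ∈ ({i, j} : Finset (Fin q)) := by rw [heq]; simp
    have hl1 : l ∈ ({i, j} : Finset (Fin q)) := by rw [heq]; simp
    simp only [mem_insert, mem_singleton] at hk1 hl1
    rcases hk1 with rfl | rfl
    · rcases hl1 with rfl | rfl
      · exact lt_irrefl _ hkl
      · exact hne ⟨rfl, rfl⟩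
    · rcases hl1 with rfl | rfl
      · exact lt_asymm hij hkl
      · exact lt_irrefl _ hkl
  · intro z hz a b
    simp only [mem_insert, mem_singleton] at hz
    rcases hz with rfl | rfl | rfl | rfl
    · rw [(hi' a).1, (hi' b).1]
    · rw [(hi' a).2, (hi' b).2]
    · rw [(hk' a).1, (hk' b).1]
    · rw [(hk' a).2, (hk' b).2]

end

/-- four-tuples as functions -/
def eqv (ι : Type*) : (ι × ι × ι × ι) ≃ (Fin 4 → ι) where
  toFun p := ![p.1, p.2.1, p.2.2.1, p.2.2.2]
  invFun τ := (τ 0, τ 1, τ 2, τ 3)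
  left_inv p := by rfl
  right_inv τ := by
    funext a
    fin_cases a <;> rfl

lemma un_eq {E ι : Type*} [DecidableEq E] [Fintype ι] [DecidableEq ι] (A : ι → Finset E) (a b c d : ι) :
    un A ![a, b, c, d] = A a ∪ A b ∪ A c ∪ A d := by
  unfold un
  ext z
  simp only [mem_biUnion, mem_univ, true_and, mem_union]
  constructor
  · rintro ⟨i, hi⟩
    fin_cases i <;> simp_all
  · rintro (((h | h) | h) | h)
    · exact ⟨0, h⟩
    · exact ⟨1, h⟩
    · exact ⟨2, h⟩
    · exact ⟨3, h⟩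

section
variable (v : Fin q → Fin n → V) (hm : ∀ i j a b, i < j → v i a < v j b)
  (hi : ∀ i a b, v i a = v i b → a = b)
include hm hi

lemma TG_empty_le (s : ℕ) (hq : q + 2 ≤ 6 * s) :
    TG (cl v) ∅ ∅ ≤ tt q n * kap q n s ^ 3 := by
  have hkap : 0 ≤ kap q n s := by unfold kap; positivity
  -- pass to a sum over all tuples
  have h1 : TG (cl v) ∅ ∅ ≤ ∑ τ : Fin 4 → (Fin q → Fin n),
      (1 / 2 : ℝ) ^ (cl v (τ 0)).card *
      ((if 3 ≤ (agr (fun i => {τ 0 i}) (τ 1)).card then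
          (1 / 2 : ℝ) ^ (cl v (τ 1) \ cl v (τ 0)).card else 0) *
      ((if 3 ≤ (agr (fun i => {τ 0 i, τ 1 i}) (τ 2)).card then
          (1 / 2 : ℝ) ^ (cl v (τ 2) \ (cl v (τ 0) ∪ cl v (τ 1))).card else 0) *
      (if 3 ≤ (agr (fun i => {τ 0 i, τ 1 i, τ 2 i}) (τ 3)).card then
          (1 / 2 : ℝ) ^ (cl v (τ 3) \ (cl v (τ 0) ∪ cl v (τ 1) ∪ cl v (τ 2))).card else 0))) := by
    unfold TG
    refine le_trans ?_ (Finset.sum_le_sum_of_subset_of_nonneg (Finset.subset_univ (four (cl v))) ?_)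
    · apply Finset.sum_le_sum
      intro τ hτ
      obtain ⟨T, hT3, hT⟩ := four_agree v hm hi τ hτ
      have hc1 : 3 ≤ (agr (fun i => {τ 0 i}) (τ 1)).card := by
        refine hT3.trans (Finset.card_le_card ?_)
        intro i hiT
        simp [agr, hT i hiT 1 0]
      have hc2 : 3 ≤ (agr (fun i => {τ 0 i, τ 1 i}) (τ 2)).card := by
        refine hT3.trans (Finset.card_le_card ?_)
        intro i hiT
        simp [agr, hT i hiT 2 0]
      have hc3 : 3 ≤ (agr (fun i => {τ 0 i, τ 1 i, τ 2 i}) (τ 3)).card := by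
        refine hT3.trans (Finset.card_le_card ?_)
        intro i hiT
        simp [agr, hT i hiT 3 0]
      rw [if_pos hc1, if_pos hc2, if_pos hc3]
      unfold wt
      simp only [disjoint_empty_right, if_true, sdiff_empty]
      have hτe : τ = ![τ 0, τ 1, τ 2, τ 3] := ((eqv _).right_inv τ).symm
      have hun : un (cl v) τ = cl v (τ 0) ∪ cl v (τ 1) ∪ cl v (τ 2) ∪ cl v (τ 3) := by
        conv_lhs => rw [hτe]
        rw [un_eq]
      rw [hun]
      have hcard : (cl v (τ 0) ∪ cl v (τ 1) ∪ cl v (τ 2) ∪ cl v (τ 3)).card =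
          (cl v (τ 0)).card + ((cl v (τ 1) \ cl v (τ 0)).card +
            ((cl v (τ 2) \ (cl v (τ 0) ∪ cl v (τ 1))).card +
              (cl v (τ 3) \ (cl v (τ 0) ∪ cl v (τ 1) ∪ cl v (τ 2))).card)) := by
        have e1 := Finset.card_union_add_card_inter (cl v (τ 0) ∪ cl v (τ 1) ∪ cl v (τ 2)) (cl v (τ 3))
        have e2 := Finset.card_sdiff_add_card_inter (cl v (τ 3)) (cl v (τ 0) ∪ cl v (τ 1) ∪ cl v (τ 2))
        have e3 := Finset.card_union_add_card_inter (cl v (τ 0) ∪ cl v (τ 1)) (cl v (τ 2))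
        have e4 := Finset.card_sdiff_add_card_inter (cl v (τ 2)) (cl v (τ 0) ∪ cl v (τ 1))
        have e5 := Finset.card_union_add_card_inter (cl v (τ 0)) (cl v (τ 1))
        have e6 := Finset.card_sdiff_add_card_inter (cl v (τ 1)) (cl v (τ 0))
        rw [Finset.inter_comm] at e2 e4 e6
        omega
      rw [hcard, pow_add, pow_add, pow_add]
    · intro τ _ _
      positivity
  refine h1.trans ?_
  rw [← (eqv (Fin q → Fin n)).sum_comp, Fintype.sum_prod_type]
  -- now bound the iterated sum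
  have hO1 : ∀ f0 : Fin q → Fin n, ∀ i j a b, i < j → (v i a, v j b) ∈ cl v f0 →
      a ∈ ({f0 i} : Finset (Fin n)) ∧ b ∈ ({f0 j} : Finset (Fin n)) := by
    intro f0 i j a b hij h
    obtain ⟨h1, h2⟩ := mem_cl_imp v hm hi f0 h
    simp [h1, h2]
  have hO2 : ∀ f0 f1 : Fin q → Fin n, ∀ i j a b, i < j → (v i a, v j b) ∈ cl v f0 ∪ cl v f1 →
      a ∈ ({f0 i, f1 i} : Finset (Fin n)) ∧ b ∈ ({f0 j, f1 j} : Finset (Fin n)) := by
    intro f0 f1 i j a b hij h
    rw [mem_union] at h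
    rcases h with h | h
    · obtain ⟨h1, h2⟩ := mem_cl_imp v hm hi f0 h
      simp [h1, h2]
    · obtain ⟨h1, h2⟩ := mem_cl_imp v hm hi f1 h
      simp [h1, h2]
  have hO3 : ∀ f0 f1 f2 : Fin q → Fin n, ∀ i j a b, i < j →
      (v i a, v j b) ∈ cl v f0 ∪ cl v f1 ∪ cl v f2 →
      a ∈ ({f0 i, f1 i, f2 i} : Finset (Fin n)) ∧ b ∈ ({f0 j, f1 j, f2 j} : Finset (Fin n)) := by
    intro f0 f1 f2 i j a b hij h
    rw [mem_union, mem_union] at h
    rcases h with (h | h) | h
    · obtain ⟨h1, h2⟩ := mem_cl_imp v hm hi f0 h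
      simp [h1, h2]
    · obtain ⟨h1, h2⟩ := mem_cl_imp v hm hi f1 h
      simp [h1, h2]
    · obtain ⟨h1, h2⟩ := mem_cl_imp v hm hi f2 h
      simp [h1, h2]
  have hsum3 : ∀ f0 f1 f2 : Fin q → Fin n,
      ∑ f3 : Fin q → Fin n, (if 3 ≤ (agr (fun i => {f0 i, f1 i, f2 i}) f3).card then
          (1 / 2 : ℝ) ^ (cl v f3 \ (cl v f0 ∪ cl v f1 ∪ cl v f2)).card else 0) ≤ kap q n s := by
    intro f0 f1 f2
    exact sum_O_le v hm hi _ _ (fun i => Finset.card_le_three) (hO3 f0 f1 f2) s hq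
  have hsum2 : ∀ f0 f1 : Fin q → Fin n,
      ∑ f2 : Fin q → Fin n, (if 3 ≤ (agr (fun i => {f0 i, f1 i}) f2).card then
          (1 / 2 : ℝ) ^ (cl v f2 \ (cl v f0 ∪ cl v f1)).card else 0) ≤ kap q n s := by
    intro f0 f1
    exact sum_O_le v hm hi _ _ (fun i => Finset.card_le_two.trans (by norm_num)) (hO2 f0 f1) s hq
  have hsum1 : ∀ f0 : Fin q → Fin n,
      ∑ f1 : Fin q → Fin n, (if 3 ≤ (agr (fun i => {f0 i}) f1).card then
          (1 / 2 : ℝ) ^ (cl v f1 \ cl v f0).card else 0) ≤ kap q n s := by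
    intro f0
    exact sum_O_le v hm hi _ _ (fun i => by simp) (hO1 f0) s hq
  have hstep : ∀ f0 : Fin q → Fin n, ∑ p : (Fin q → Fin n) × (Fin q → Fin n) × (Fin q → Fin n),
      (1 / 2 : ℝ) ^ (cl v f0).card *
      ((if 3 ≤ (agr (fun i => {f0 i}) p.1).card then
          (1 / 2 : ℝ) ^ (cl v p.1 \ cl v f0).card else 0) *
      ((if 3 ≤ (agr (fun i => {f0 i, p.1 i}) p.2.1).card then
          (1 / 2 : ℝ) ^ (cl v p.2.1 \ (cl v f0 ∪ cl v p.1)).card else 0) *
      (if 3 ≤ (agr (fun i => {f0 i, p.1 i, p.2.1 i}) p.2.2).card then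
          (1 / 2 : ℝ) ^ (cl v p.2.2 \ (cl v f0 ∪ cl v p.1 ∪ cl v p.2.1)).card else 0)))
      ≤ (1 / 2 : ℝ) ^ (cl v f0).card * kap q n s ^ 3 := by
    intro f0
    rw [← Finset.mul_sum]
    apply mul_le_mul_of_nonneg_left _ (by positivity)
    rw [Fintype.sum_prod_type]
    calc ∑ f1 : Fin q → Fin n, ∑ p : (Fin q → Fin n) × (Fin q → Fin n),
        ((if 3 ≤ (agr (fun i => {f0 i}) f1).card then
          (1 / 2 : ℝ) ^ (cl v f1 \ cl v f0).card else 0) *
        ((if 3 ≤ (agr (fun i => {f0 i, f1 i}) p.1).card then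
          (1 / 2 : ℝ) ^ (cl v p.1 \ (cl v f0 ∪ cl v f1)).card else 0) *
        (if 3 ≤ (agr (fun i => {f0 i, f1 i, p.1 i}) p.2).card then
          (1 / 2 : ℝ) ^ (cl v p.2 \ (cl v f0 ∪ cl v f1 ∪ cl v p.1)).card else 0)))
        ≤ ∑ f1 : Fin q → Fin n, (if 3 ≤ (agr (fun i => {f0 i}) f1).card then
          (1 / 2 : ℝ) ^ (cl v f1 \ cl v f0).card else 0) * kap q n s ^ 2 := by
          apply Finset.sum_le_sum
          intro f1 _
          rw [← Finset.mul_sum]
          apply mul_le_mul_of_nonneg_left _ (by positivity)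
          rw [Fintype.sum_prod_type]
          calc ∑ f2 : Fin q → Fin n, ∑ f3 : Fin q → Fin n,
              ((if 3 ≤ (agr (fun i => {f0 i, f1 i}) f2).card then
                (1 / 2 : ℝ) ^ (cl v f2 \ (cl v f0 ∪ cl v f1)).card else 0) *
              (if 3 ≤ (agr (fun i => {f0 i, f1 i, f2 i}) f3).card then
                (1 / 2 : ℝ) ^ (cl v f3 \ (cl v f0 ∪ cl v f1 ∪ cl v f2)).card else 0))
              ≤ ∑ f2 : Fin q → Fin n, (if 3 ≤ (agr (fun i => {f0 i, f1 i}) f2).card then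
                (1 / 2 : ℝ) ^ (cl v f2 \ (cl v f0 ∪ cl v f1)).card else 0) * kap q n s := by
                apply Finset.sum_le_sum
                intro f2 _
                rw [← Finset.mul_sum]
                exact mul_le_mul_of_nonneg_left (hsum3 f0 f1 f2) (by positivity)
            _ ≤ kap q n s * kap q n s := by
                rw [← Finset.sum_mul]
                exact mul_le_mul_of_nonneg_right (hsum2 f0 f1) hkap
            _ = kap q n s ^ 2 := by ring
      _ ≤ kap q n s * kap q n s ^ 2 := by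
          rw [← Finset.sum_mul]
          exact mul_le_mul_of_nonneg_right (hsum1 f0) (by positivity)
      _ = kap q n s ^ 3 := by ring
  refine (Finset.sum_le_sum (fun f0 _ => hstep f0)).trans ?_
  rw [← Finset.sum_mul]
  apply mul_le_mul_of_nonneg_right _ (by positivity)
  have := TF_empty v hm hi
  unfold TF wt at this
  simp only [disjoint_empty_right, if_true, sdiff_empty] at this
  exact this.le

end

end Pool.Agent.Helper340.Board
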