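import Mathlib

set_option autoImplicit false
set_option linter.unusedVariables false
set_option linter.unusedSectionVars false
set_option linter.unusedSimpArgs false

namespace Pool.Agent.Helper340.Crit12

open Finset

/-- weight of a set `s` (with reduced part `a`) when Maker owns `X` and the points of `Y` are
blocked. -/
noncomputable def wt {E : Type*} [DecidableEq E] (X Y s a : Finset E) : ℝ :=
  if Disjoint s Y then (1 / 3 : ℝ) ^ ((a \ X).card) else 0

section basic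
variable {E : Type*} [DecidableEq E]

lemma wt_nonneg (X Y s a : Finset E) : 0 ≤ wt X Y s a := by
  unfold wt; split_ifs <;> positivity

lemma key_in {X a : Finset E} {x : E} (hxX : x ∉ X) (hx : x ∈ a) :
    (1 / 3 : ℝ) ^ ((a \ insert x X).card) = 3 * (1 / 3 : ℝ) ^ ((a \ X).card) := by
  have h1 : a \ insert x X = (a \ X).erase x := by
    ext z; simp only [mem_sdiff, mem_insert, mem_erase, not_or]; tauto
  have hmem : x ∈ a \ X := by simp [hx, hxX]
  have h2 : (a \ X).card = ((a \ X).erase x).card + 1 := by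
    rw [card_erase_of_mem hmem]
    have : 0 < (a \ X).card := card_pos.mpr ⟨x, hmem⟩
    omega
  rw [h1, h2, pow_succ]; ring

lemma key_notin {X a : Finset E} {x : E} (hx : x ∉ a) :
    (1 / 3 : ℝ) ^ ((a \ insert x X).card) = (1 / 3 : ℝ) ^ ((a \ X).card) := by
  have h1 : a \ insert x X = a \ X := by
    ext z; simp only [mem_sdiff, mem_insert, not_or]
    constructor
    · rintro ⟨a, b, c⟩; exact ⟨a, c⟩
    · rintro ⟨a, b⟩; refine ⟨a, ?_, b⟩; rintro rfl; exact hx a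
  rw [h1]

lemma wt_new {X Y s a : Finset E} {x y₁ y₂ : E} (hxX : x ∉ X) :
    wt (insert x X) (insert y₁ (insert y₂ Y)) s a =
      if y₁ ∈ s ∨ y₂ ∈ s then 0 else (if x ∈ a then 3 * wt X Y s a else wt X Y s a) := by
  have hdis : Disjoint s (insert y₁ (insert y₂ Y)) ↔ y₁ ∉ s ∧ y₂ ∉ s ∧ Disjoint s Y := by
    rw [disjoint_insert_right, disjoint_insert_right]
  unfold wt
  rw [if_congr hdis rfl rfl]
  by_cases h1 : y₁ ∈ s
  · simp [h1]
  by_cases h2 : y₂ ∈ s
  · simp [h2]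
  by_cases hD : Disjoint s Y
  · simp only [h1, h2, hD, not_false_eq_true, and_self, or_self, if_true, if_false]
    split_ifs with hx
    · exact key_in hxX hx
    · exact key_notin hx
  · simp [h1, h2, hD]

lemma wt_lower {X Y s : Finset E} {x y₁ y₂ : E} (hxX : x ∉ X) :
    wt X Y s s + 2 * (if x ∈ s then wt X Y s s else 0) - (if y₁ ∈ s then wt X Y s s else 0)
      - (if y₂ ∈ s then wt X Y s s else 0)
      - 2 * (if x ∈ s ∧ y₁ ∈ s then wt X Y s s else 0)
      - 2 * (if x ∈ s ∧ y₂ ∈ s then wt X Y s s else 0)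
      ≤ wt (insert x X) (insert y₁ (insert y₂ Y)) s s := by
  rw [wt_new hxX]
  have h := wt_nonneg X Y s s
  by_cases hx : x ∈ s <;> by_cases h1 : y₁ ∈ s <;> by_cases h2 : y₂ ∈ s <;>
    simp only [hx, h1, h2, if_true, if_false, or_self, or_true, true_or, or_false, and_self,
      and_true, and_false] <;> linarith

lemma wt_lower' {X Y s : Finset E} {x y₁ y₂ : E} (hxX : x ∉ X) :
    wt X Y s s - (if y₁ ∈ s then wt X Y s s else 0)
      - (if y₂ ∈ s then wt X Y s s else 0)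
      ≤ wt (insert x X) (insert y₁ (insert y₂ Y)) s s := by
  rw [wt_new hxX]
  have h := wt_nonneg X Y s s
  by_cases hx : x ∈ s <;> by_cases h1 : y₁ ∈ s <;> by_cases h2 : y₂ ∈ s <;>
    simp only [hx, h1, h2, if_true, if_false, or_self, or_true, true_or, or_false, and_self,
      and_true, and_false] <;> linarith

lemma wt_upper' {X Y s : Finset E} {x y₁ y₂ : E} (hxX : x ∉ X) :
    wt (insert x X) (insert y₁ (insert y₂ Y)) s s
      ≤ wt X Y s s + 2 * (if x ∈ s then wt X Y s s else 0) := by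
  rw [wt_new hxX]
  have h := wt_nonneg X Y s s
  by_cases hx : x ∈ s <;> by_cases h1 : y₁ ∈ s <;> by_cases h2 : y₂ ∈ s <;>
    simp only [hx, h1, h2, if_true, if_false, or_self, or_true, true_or, or_false, and_self,
      and_true, and_false] <;> linarith

lemma wt_upper {X Y s a : Finset E} (has : a ⊆ s) {x y₁ y₂ : E} (hxX : x ∉ X) :
    wt (insert x X) (insert y₁ (insert y₂ Y)) s a
      ≤ wt X Y s a + 2 * (if x ∈ a then wt X Y s a else 0)
        - (if y₁ ∈ a then wt X Y s a else 0) - (if y₂ ∈ a then wt X Y s a else 0)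
        + (if y₁ ∈ a ∧ y₂ ∈ a then wt X Y s a else 0) := by
  rw [wt_new hxX]
  have h := wt_nonneg X Y s a
  by_cases hx : x ∈ a <;> by_cases h1 : y₁ ∈ a <;> by_cases h2 : y₂ ∈ a <;>
    by_cases h1' : y₁ ∈ s <;> by_cases h2' : y₂ ∈ s <;>
    first
    | exact absurd (has h1) h1'
    | exact absurd (has h2) h2'
    | (simp only [hx, h1, h2, h1', h2', if_true, if_false, or_self, or_true, true_or, or_false,
        and_self, and_true, and_false]; linarith)

lemma wt_mono {X Y s a b : Finset E} (hab : b ⊆ a) : wt X Y s a ≤ wt X Y s b := by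
  unfold wt
  split_ifs with h
  · apply pow_le_pow_of_le_one (by norm_num) (by norm_num)
    exact card_le_card (sdiff_subset_sdiff hab (le_refl _))
  · exact le_refl _

end basic

/-- A family of winning sets `A φ` with a system of levels. -/
structure Sys (E Φ L : Type*) [DecidableEq E] [DecidableEq Φ] where
  A : Φ → Finset E
  mem : L → Finset Φ
  red : L → Φ → Finset E
  K : Finset L
  base : L
  cap : L → ℝ
  e1 : ℝ
  e2 : ℝ
  lam : ℝ
  red_sub : ∀ κ φ, red κ φ ⊆ A φ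
  red_base : ∀ φ, red base φ = A φ
  cap_pos : ∀ κ, 0 < cap κ
  K_ne : K.Nonempty
  one : ∀ κ, ∀ φ₀ ∈ mem κ, ∀ u ∈ red κ φ₀, ∃ κ' ∈ K, cap κ' ≤ e1 * cap κ ∧
    ∀ φ ∈ mem κ, u ∈ red κ φ → φ ∈ mem κ' ∧ red κ' φ ⊆ red κ φ
  two : ∀ κ, ∀ φ₀ ∈ mem κ, ∀ u ∈ red κ φ₀, ∀ v ∈ red κ φ₀, u ≠ v →
    ∃ κ' ∈ K, cap κ' ≤ e2 * cap κ ∧
    ∀ φ ∈ mem κ, u ∈ red κ φ → v ∈ red κ φ → φ ∈ mem κ' ∧ red κ' φ ⊆ red κ φ
  lam_ge : 1 ≤ lam
  e2_nonneg : 0 ≤ e2
  e2_le : e2 ≤ e1
  e1_le : e1 ≤ 1 / 16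
  lam_e1 : 3 * lam * e1 ≤ 1
  K_le : 3 * (K.card : ℝ) ≤ Real.exp lam

namespace Sys

variable {E Φ L : Type*} [DecidableEq E] [DecidableEq Φ] (S : Sys E Φ L)

noncomputable def val (X Y : Finset E) (κ : L) : ℝ :=
  ∑ φ ∈ S.mem κ, wt X Y (S.A φ) (S.red κ φ)

noncomputable def val1 (X Y : Finset E) (κ : L) (u : E) : ℝ :=
  ∑ φ ∈ S.mem κ, if u ∈ S.red κ φ then wt X Y (S.A φ) (S.red κ φ) else 0

noncomputable def val2 (X Y : Finset E) (κ : L) (u v : E) : ℝ :=
  ∑ φ ∈ S.mem κ, if u ∈ S.red κ φ ∧ v ∈ S.red κ φ then wt X Y (S.A φ) (S.red κ φ) else 0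

lemma val_nonneg (X Y : Finset E) (κ : L) : 0 ≤ S.val X Y κ :=
  Finset.sum_nonneg (fun _ _ => wt_nonneg _ _ _ _)

lemma val1_nonneg (X Y : Finset E) (κ : L) (u : E) : 0 ≤ S.val1 X Y κ u := by
  unfold val1
  apply Finset.sum_nonneg; intro i _; split_ifs
  · exact wt_nonneg _ _ _ _
  · exact le_refl _

lemma val2_nonneg (X Y : Finset E) (κ : L) (u v : E) : 0 ≤ S.val2 X Y κ u v := by
  unfold val2
  apply Finset.sum_nonneg; intro i _; split_ifs
  · exact wt_nonneg _ _ _ _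
  · exact le_refl _

lemma e1_nonneg : 0 ≤ S.e1 := S.e2_nonneg.trans S.e2_le

/-- normalised values -/
noncomputable def z (X Y : Finset E) (κ : L) : ℝ := S.val X Y κ / S.cap κ

lemma z_nonneg (X Y : Finset E) (κ : L) : 0 ≤ S.z X Y κ :=
  div_nonneg (S.val_nonneg X Y κ) (S.cap_pos κ).le

/-- the exponential potential -/
noncomputable def Psi (X Y : Finset E) : ℝ :=
  (∑ κ ∈ S.K, Real.exp (S.lam * S.z X Y κ)) / (S.K.card : ℝ)

lemma K_card_pos : (0 : ℝ) < (S.K.card : ℝ) := by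
  exact_mod_cast S.K_ne.card_pos

lemma Psi_ge_one (X Y : Finset E) : 1 ≤ S.Psi X Y := by
  unfold Psi
  rw [le_div_iff₀ S.K_card_pos, one_mul]
  calc (S.K.card : ℝ) = ∑ κ ∈ S.K, (1 : ℝ) := by simp
    _ ≤ ∑ κ ∈ S.K, Real.exp (S.lam * S.z X Y κ) := by
      apply Finset.sum_le_sum
      intro κ _
      rw [← Real.exp_zero]
      apply Real.exp_le_exp.mpr
      exact mul_nonneg (by linarith [S.lam_ge]) (S.z_nonneg X Y κ)

/-- all capped levels are below their caps -/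
def Caps (X Y : Finset E) : Prop := ∀ κ ∈ S.K, S.val X Y κ ≤ S.cap κ

lemma caps_of_Psi {X Y : Finset E} (h : S.Psi X Y ≤ 3) : S.Caps X Y := by
  intro κ hκ
  unfold Psi at h
  rw [div_le_iff₀ S.K_card_pos] at h
  have h1 : Real.exp (S.lam * S.z X Y κ) ≤ ∑ κ ∈ S.K, Real.exp (S.lam * S.z X Y κ) :=
    Finset.single_le_sum (f := fun κ => Real.exp (S.lam * S.z X Y κ))
      (fun i _ => (Real.exp_pos _).le) hκ
  have h2 : Real.exp (S.lam * S.z X Y κ) ≤ Real.exp S.lam := h1.trans (h.trans S.K_le)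
  have h3 := Real.exp_le_exp.mp h2
  have h4 : S.z X Y κ ≤ 1 := by
    have := S.lam_ge
    nlinarith
  unfold z at h4
  rwa [div_le_one (S.cap_pos κ)] at h4

lemma val1_le {X Y : Finset E} (hc : S.Caps X Y) (κ : L) (u : E) :
    S.val1 X Y κ u ≤ S.e1 * S.cap κ := by
  by_cases h : ∃ φ₀ ∈ S.mem κ, u ∈ S.red κ φ₀
  · obtain ⟨φ₀, h0, h1⟩ := h
    obtain ⟨κ', hK, hcap, hdom⟩ := S.one κ φ₀ h0 u h1
    refine le_trans ?_ ((hc κ' hK).trans hcap)
    unfold val1 val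
    rw [← Finset.sum_filter]
    have hsub : (S.mem κ).filter (fun φ => u ∈ S.red κ φ) ⊆ S.mem κ' := by
      intro φ hφ
      rw [Finset.mem_filter] at hφ
      exact (hdom φ hφ.1 hφ.2).1
    calc ∑ φ ∈ (S.mem κ).filter (fun φ => u ∈ S.red κ φ), wt X Y (S.A φ) (S.red κ φ)
        ≤ ∑ φ ∈ (S.mem κ).filter (fun φ => u ∈ S.red κ φ), wt X Y (S.A φ) (S.red κ' φ) := by
          apply Finset.sum_le_sum
          intro φ hφ
          rw [Finset.mem_filter] at hφ
          exact wt_mono (hdom φ hφ.1 hφ.2).2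
      _ ≤ _ := Finset.sum_le_sum_of_subset_of_nonneg hsub (fun _ _ _ => wt_nonneg _ _ _ _)
  · push Not at h
    have : S.val1 X Y κ u = 0 := by
      unfold val1
      apply Finset.sum_eq_zero
      intro φ hφ
      rw [if_neg (h φ hφ)]
    rw [this]
    exact mul_nonneg S.e1_nonneg (S.cap_pos κ).le

lemma val2_le {X Y : Finset E} (hc : S.Caps X Y) (κ : L) {u v : E} (huv : u ≠ v) :
    S.val2 X Y κ u v ≤ S.e2 * S.cap κ := by
  by_cases h : ∃ φ₀ ∈ S.mem κ, u ∈ S.red κ φ₀ ∧ v ∈ S.red κ φ₀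
  · obtain ⟨φ₀, h0, h1, h1'⟩ := h
    obtain ⟨κ', hK, hcap, hdom⟩ := S.two κ φ₀ h0 u h1 v h1' huv
    refine le_trans ?_ ((hc κ' hK).trans hcap)
    unfold val2 val
    rw [← Finset.sum_filter]
    have hsub : (S.mem κ).filter (fun φ => u ∈ S.red κ φ ∧ v ∈ S.red κ φ) ⊆ S.mem κ' := by
      intro φ hφ
      rw [Finset.mem_filter] at hφ
      exact (hdom φ hφ.1 hφ.2.1 hφ.2.2).1
    calc ∑ φ ∈ (S.mem κ).filter (fun φ => u ∈ S.red κ φ ∧ v ∈ S.red κ φ),
          wt X Y (S.A φ) (S.red κ φ)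
        ≤ ∑ φ ∈ (S.mem κ).filter (fun φ => u ∈ S.red κ φ ∧ v ∈ S.red κ φ),
          wt X Y (S.A φ) (S.red κ' φ) := by
          apply Finset.sum_le_sum
          intro φ hφ
          rw [Finset.mem_filter] at hφ
          exact wt_mono (hdom φ hφ.1 hφ.2.1 hφ.2.2).2
      _ ≤ _ := Finset.sum_le_sum_of_subset_of_nonneg hsub (fun _ _ _ => wt_nonneg _ _ _ _)
  · push Not at h
    have : S.val2 X Y κ u v = 0 := by
      unfold val2
      apply Finset.sum_eq_zero
      intro φ hφ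
      rw [if_neg]
      rintro ⟨h1, h2⟩
      exact h φ hφ h1 h2
    rw [this]
    exact mul_nonneg S.e2_nonneg (S.cap_pos κ).le

section round
variable {X Y : Finset E} {x y₁ y₂ : E}

lemma val_base_lower (hxX : x ∉ X) :
    S.val X Y S.base + 2 * S.val1 X Y S.base x - S.val1 X Y S.base y₁ - S.val1 X Y S.base y₂
      - 2 * S.val2 X Y S.base x y₁ - 2 * S.val2 X Y S.base x y₂
      ≤ S.val (insert x X) (insert y₁ (insert y₂ Y)) S.base := by
  unfold val val1 val2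
  rw [Finset.mul_sum, Finset.mul_sum, Finset.mul_sum, ← Finset.sum_add_distrib,
    ← Finset.sum_sub_distrib, ← Finset.sum_sub_distrib, ← Finset.sum_sub_distrib,
    ← Finset.sum_sub_distrib]
  apply Finset.sum_le_sum
  intro φ _
  rw [S.red_base φ]
  exact wt_lower hxX

lemma val_base_lower' (hxX : x ∉ X) :
    S.val X Y S.base - S.val1 X Y S.base y₁ - S.val1 X Y S.base y₂
      ≤ S.val (insert x X) (insert y₁ (insert y₂ Y)) S.base := by
  unfold val val1
  rw [← Finset.sum_sub_distrib, ← Finset.sum_sub_distrib]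
  apply Finset.sum_le_sum
  intro φ _
  rw [S.red_base φ]
  exact wt_lower' hxX

lemma val_base_upper' (hxX : x ∉ X) :
    S.val (insert x X) (insert y₁ (insert y₂ Y)) S.base
      ≤ S.val X Y S.base + 2 * S.val1 X Y S.base x := by
  unfold val val1
  rw [Finset.mul_sum, ← Finset.sum_add_distrib]
  apply Finset.sum_le_sum
  intro φ _
  rw [S.red_base φ]
  exact wt_upper' hxX

lemma val_upper (κ : L) (hxX : x ∉ X) :
    S.val (insert x X) (insert y₁ (insert y₂ Y)) κ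
      ≤ S.val X Y κ + 2 * S.val1 X Y κ x - S.val1 X Y κ y₁ - S.val1 X Y κ y₂
        + S.val2 X Y κ y₁ y₂ := by
  unfold val val1 val2
  rw [Finset.mul_sum, ← Finset.sum_add_distrib, ← Finset.sum_sub_distrib,
    ← Finset.sum_sub_distrib, ← Finset.sum_add_distrib]
  apply Finset.sum_le_sum
  intro φ _
  exact wt_upper (S.red_sub κ φ) hxX

/-- linearised danger of a point -/
noncomputable def D (X Y : Finset E) (u : E) : ℝ :=
  (∑ κ ∈ S.K, Real.exp (S.lam * S.z X Y κ) * (S.lam * (S.val1 X Y κ u / S.cap κ)))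
    / (S.K.card : ℝ)

/-- linearised value of a point -/
noncomputable def j (X Y : Finset E) (u : E) : ℝ :=
  S.cap S.base / (S.val X Y S.base) ^ 2 * S.val1 X Y S.base u - S.D X Y u

/-- potential -/
noncomputable def J (X Y : Finset E) : ℝ :=
  - (S.cap S.base / S.val X Y S.base) - S.Psi X Y

noncomputable def err : ℝ := 20 * S.lam * S.e2 + 100 * S.lam ^ 2 * S.e1 ^ 2

lemma err_nonneg : 0 ≤ S.err := by
  unfold err
  have h1 := S.lam_ge
  have h2 := S.e2_nonneg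
  have h3 := S.e1_nonneg
  positivity

lemma Psi_round (hxX : x ∉ X) (hy : y₁ ≠ y₂) (hc : S.Caps X Y) (hP : S.Psi X Y ≤ 3) :
    S.Psi (insert x X) (insert y₁ (insert y₂ Y)) ≤ S.Psi X Y + 2 * S.D X Y x - S.D X Y y₁
      - S.D X Y y₂ + (3 * S.lam * S.e2 + 27 * S.lam ^ 2 * S.e1 ^ 2) := by
  have hl := S.lam_ge
  have he1 := S.e1_nonneg
  have he2 := S.e2_nonneg
  have he21 := S.e2_le
  have hle := S.lam_e1
  set C : ℝ := S.lam * S.e2 + 9 * S.lam ^ 2 * S.e1 ^ 2 with hC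
  have hpt : ∀ κ ∈ S.K, Real.exp (S.lam * S.z (insert x X) (insert y₁ (insert y₂ Y)) κ) ≤
      Real.exp (S.lam * S.z X Y κ)
      + 2 * (Real.exp (S.lam * S.z X Y κ) * (S.lam * (S.val1 X Y κ x / S.cap κ)))
      - Real.exp (S.lam * S.z X Y κ) * (S.lam * (S.val1 X Y κ y₁ / S.cap κ))
      - Real.exp (S.lam * S.z X Y κ) * (S.lam * (S.val1 X Y κ y₂ / S.cap κ))
      + Real.exp (S.lam * S.z X Y κ) * C := by
    intro κ _
    have hcap := S.cap_pos κ
    set a := S.val1 X Y κ x / S.cap κ with ha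
    set b := S.val1 X Y κ y₁ / S.cap κ with hb
    set c := S.val1 X Y κ y₂ / S.cap κ with hc'
    set d := S.val2 X Y κ y₁ y₂ / S.cap κ with hd
    have ha0 : 0 ≤ a := div_nonneg (S.val1_nonneg _ _ _ _) hcap.le
    have hb0 : 0 ≤ b := div_nonneg (S.val1_nonneg _ _ _ _) hcap.le
    have hc0 : 0 ≤ c := div_nonneg (S.val1_nonneg _ _ _ _) hcap.le
    have hd0 : 0 ≤ d := div_nonneg (S.val2_nonneg _ _ _ _ _) hcap.le
    have ha1 : a ≤ S.e1 := by rw [ha, div_le_iff₀ hcap]; exact S.val1_le hc κ x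
    have hb1 : b ≤ S.e1 := by rw [hb, div_le_iff₀ hcap]; exact S.val1_le hc κ y₁
    have hc1 : c ≤ S.e1 := by rw [hc', div_le_iff₀ hcap]; exact S.val1_le hc κ y₂
    have hd1 : d ≤ S.e2 := by rw [hd, div_le_iff₀ hcap]; exact S.val2_le hc κ hy
    have hz : S.z (insert x X) (insert y₁ (insert y₂ Y)) κ ≤ S.z X Y κ + (2 * a - b - c + d) := by
      unfold z
      rw [div_le_iff₀ hcap]
      have := S.val_upper (X := X) (Y := Y) (x := x) (y₁ := y₁) (y₂ := y₂) κ hxX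
      have e1 : (S.val X Y κ / S.cap κ + (2 * a - b - c + d)) * S.cap κ
          = S.val X Y κ + 2 * S.val1 X Y κ x - S.val1 X Y κ y₁ - S.val1 X Y κ y₂
            + S.val2 X Y κ y₁ y₂ := by
        rw [ha, hb, hc', hd]; field_simp; ring
      rw [e1]; exact this
    set t := 2 * a - b - c + d with ht
    have ht1 : t ≤ 3 * S.e1 := by linarith
    have ht2 : -(3 * S.e1) ≤ t := by linarith
    have hlt : |S.lam * t| ≤ 1 := by
      rw [abs_le]; constructor <;> nlinarith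
    have hexp : Real.exp (S.lam * t) ≤ 1 + S.lam * t + (S.lam * t) ^ 2 := by
      have h := Real.abs_exp_sub_one_sub_id_le hlt
      rw [abs_le] at h
      linarith [h.2]
    have ht3 : t ^ 2 ≤ 9 * S.e1 ^ 2 := by
      have : t ^ 2 ≤ (3 * S.e1) ^ 2 := sq_le_sq' ht2 ht1
      nlinarith
    have h1 : Real.exp (S.lam * S.z (insert x X) (insert y₁ (insert y₂ Y)) κ)
        ≤ Real.exp (S.lam * S.z X Y κ) * Real.exp (S.lam * t) := by
      rw [← Real.exp_add]
      apply Real.exp_le_exp.mpr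
      nlinarith
    have h2 : Real.exp (S.lam * t) ≤ 1 + 2 * (S.lam * a) - S.lam * b - S.lam * c + C := by
      refine hexp.trans ?_
      have : (S.lam * t) ^ 2 ≤ 9 * S.lam ^ 2 * S.e1 ^ 2 := by
        rw [mul_pow]
        have : 0 ≤ S.lam ^ 2 := by positivity
        nlinarith
      have h3 : S.lam * t = 2 * (S.lam * a) - S.lam * b - S.lam * c + S.lam * d := by
        rw [ht]; ring
      have h4 : S.lam * d ≤ S.lam * S.e2 := mul_le_mul_of_nonneg_left hd1 (by linarith)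
      rw [hC]
      linarith
    have h5 := mul_le_mul_of_nonneg_left h2 (Real.exp_pos (S.lam * S.z X Y κ)).le
    refine h1.trans (h5.trans (le_of_eq ?_))
    ring
  have hsum := Finset.sum_le_sum hpt
  have hKp := S.K_card_pos
  have e1 : S.Psi X Y + 2 * S.D X Y x - S.D X Y y₁ - S.D X Y y₂ + S.Psi X Y * C
      = (∑ κ ∈ S.K, (Real.exp (S.lam * S.z X Y κ)
      + 2 * (Real.exp (S.lam * S.z X Y κ) * (S.lam * (S.val1 X Y κ x / S.cap κ)))
      - Real.exp (S.lam * S.z X Y κ) * (S.lam * (S.val1 X Y κ y₁ / S.cap κ))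
      - Real.exp (S.lam * S.z X Y κ) * (S.lam * (S.val1 X Y κ y₂ / S.cap κ))
      + Real.exp (S.lam * S.z X Y κ) * C)) / (S.K.card : ℝ) := by
    unfold Psi D
    rw [Finset.sum_add_distrib, Finset.sum_sub_distrib, Finset.sum_sub_distrib,
      Finset.sum_add_distrib, ← Finset.mul_sum, ← Finset.sum_mul]
    field_simp
  have hPn : S.Psi (insert x X) (insert y₁ (insert y₂ Y)) ≤ S.Psi X Y + 2 * S.D X Y x
      - S.D X Y y₁ - S.D X Y y₂ + S.Psi X Y * C := by
    rw [e1]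
    unfold Psi
    exact div_le_div_of_nonneg_right hsum hKp.le
  have hC0 : 0 ≤ C := by rw [hC]; positivity
  have : S.Psi X Y * C ≤ 3 * C := mul_le_mul_of_nonneg_right hP hC0
  rw [hC] at this
  rw [hC] at hPn
  linarith

lemma base_round (hxX : x ∉ X) (h1 : x ≠ y₁) (h2 : x ≠ y₂) (hc : S.Caps X Y)
    (hF : S.cap S.base / 2 ≤ S.val X Y S.base) :
    0 < S.val (insert x X) (insert y₁ (insert y₂ Y)) S.base ∧
    - (S.cap S.base / S.val X Y S.base) + S.cap S.base / (S.val X Y S.base) ^ 2 *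
        (2 * S.val1 X Y S.base x - S.val1 X Y S.base y₁ - S.val1 X Y S.base y₂)
      - (16 * S.e2 + 64 * S.e1 ^ 2)
      ≤ - (S.cap S.base / S.val (insert x X) (insert y₁ (insert y₂ Y)) S.base) := by
  have hcap := S.cap_pos S.base
  have he1 := S.e1_nonneg
  have he16 := S.e1_le
  have he2 := S.e2_nonneg
  set F₀ := S.cap S.base with hF0
  set F := S.val X Y S.base with hFd
  set F' := S.val (insert x X) (insert y₁ (insert y₂ Y)) S.base with hF'
  set a := S.val1 X Y S.base x with ha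
  set b := S.val1 X Y S.base y₁ with hb
  set c := S.val1 X Y S.base y₂ with hc'
  have ha0 : 0 ≤ a := S.val1_nonneg _ _ _ _
  have hb0 : 0 ≤ b := S.val1_nonneg _ _ _ _
  have hc0 : 0 ≤ c := S.val1_nonneg _ _ _ _
  have ha1 : a ≤ S.e1 * F₀ := S.val1_le hc _ x
  have hb1 : b ≤ S.e1 * F₀ := S.val1_le hc _ y₁
  have hc1 : c ≤ S.e1 * F₀ := S.val1_le hc _ y₂
  have hd1 : S.val2 X Y S.base x y₁ ≤ S.e2 * F₀ := S.val2_le hc _ h1
  have hd2 : S.val2 X Y S.base x y₂ ≤ S.e2 * F₀ := S.val2_le hc _ h2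
  have hL := S.val_base_lower (Y := Y) (y₁ := y₁) (y₂ := y₂) hxX
  have hL' := S.val_base_lower' (Y := Y) (y₁ := y₁) (y₂ := y₂) hxX
  have hU' := S.val_base_upper' (Y := Y) (y₁ := y₁) (y₂ := y₂) hxX
  rw [← hFd, ← hF', ← ha, ← hb, ← hc'] at hL
  rw [← hFd, ← hF', ← hb, ← hc'] at hL'
  rw [← hFd, ← hF', ← ha] at hU'
  have hF0' : 0 < F := by linarith
  have hFq : F₀ / 4 ≤ F' := by
    have : S.e1 * F₀ ≤ F₀ / 16 := by nlinarith
    linarith
  have hF'0 : 0 < F' := by linarith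
  refine ⟨hF'0, ?_⟩
  -- normalise
  set δ := F' - F with hδ
  have hδ1 : δ ≤ 2 * (S.e1 * F₀) := by linarith
  have hδ2 : -(2 * (S.e1 * F₀)) ≤ δ := by linarith
  have hδsq : δ ^ 2 ≤ (2 * (S.e1 * F₀)) ^ 2 := sq_le_sq' hδ2 hδ1
  have hid : - (F₀ / F') = - (F₀ / F) + F₀ / F ^ 2 * δ - F₀ * δ ^ 2 / (F ^ 2 * F') := by
    have : F' = F + δ := by rw [hδ]; ring
    rw [hδ]
    field_simp
    ring
  have hg : F₀ / F ^ 2 * δ ≥ F₀ / F ^ 2 * (2 * a - b - c) - 16 * S.e2 := by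
    have h3 : δ ≥ (2 * a - b - c) - 4 * (S.e2 * F₀) := by linarith
    have h4 : 0 ≤ F₀ / F ^ 2 := by positivity
    have h5 : F₀ / F ^ 2 * (4 * (S.e2 * F₀)) ≤ 16 * S.e2 := by
      have h6 : F₀ / F ^ 2 * (4 * (S.e2 * F₀)) = 4 * S.e2 * (F₀ ^ 2 / F ^ 2) := by
        field_simp
      rw [h6]
      have h7 : F₀ ^ 2 / F ^ 2 ≤ 4 := by
        rw [div_le_iff₀ (by positivity)]
        nlinarith
      nlinarith
    have h8 := mul_le_mul_of_nonneg_left h3 h4
    rw [mul_sub] at h8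
    linarith
  have hs : F₀ * δ ^ 2 / (F ^ 2 * F') ≤ 64 * S.e1 ^ 2 := by
    rw [div_le_iff₀ (by positivity)]
    have h9 : F₀ * δ ^ 2 ≤ F₀ * (2 * (S.e1 * F₀)) ^ 2 := mul_le_mul_of_nonneg_left hδsq hcap.le
    have h10 : (F₀ / 2) ^ 2 ≤ F ^ 2 := pow_le_pow_left₀ (by positivity) hF 2
    have h11 : (F₀ / 2) ^ 2 * (F₀ / 4) ≤ F ^ 2 * F' :=
      mul_le_mul h10 hFq (by positivity) (by positivity)
    have h12 : 64 * S.e1 ^ 2 * ((F₀ / 2) ^ 2 * (F₀ / 4)) ≤ 64 * S.e1 ^ 2 * (F ^ 2 * F') :=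
      mul_le_mul_of_nonneg_left h11 (by positivity)
    nlinarith
  rw [hid]
  linarith

lemma J_round (hxX : x ∉ X) (h1 : x ≠ y₁) (h2 : x ≠ y₂) (hy : y₁ ≠ y₂)
    (hP : S.Psi X Y ≤ 3)
    (hF : S.cap S.base / 2 ≤ S.val X Y S.base)
    (hj1 : S.j X Y y₁ ≤ S.j X Y x) (hj2 : S.j X Y y₂ ≤ S.j X Y x) :
    0 < S.val (insert x X) (insert y₁ (insert y₂ Y)) S.base ∧
    S.J X Y - S.err ≤ S.J (insert x X) (insert y₁ (insert y₂ Y)) := by
  have hc := S.caps_of_Psi hP
  obtain ⟨hpos, hb⟩ := S.base_round (Y := Y) (y₁ := y₁) (y₂ := y₂) hxX h1 h2 hc hF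
  refine ⟨hpos, ?_⟩
  have hPsi := S.Psi_round (Y := Y) (x := x) (y₁ := y₁) (y₂ := y₂) hxX hy hc hP
  unfold J err
  unfold j at hj1 hj2
  have hl := S.lam_ge
  have he1 := S.e1_nonneg
  have he2 := S.e2_nonneg
  have h3 : 16 * S.e2 ≤ 16 * S.lam * S.e2 := by nlinarith
  have h4 : 64 * S.e1 ^ 2 ≤ 64 * S.lam ^ 2 * S.e1 ^ 2 := by
    have : 1 ≤ S.lam ^ 2 := by nlinarith
    have h5 : 0 ≤ S.e1 ^ 2 := by positivity
    nlinarith
  have h6 : 0 ≤ S.lam * S.e2 := by positivity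
  have h7 : 0 ≤ S.lam ^ 2 * S.e1 ^ 2 := by positivity
  have h8 : S.cap S.base / (S.val X Y S.base) ^ 2 *
        (2 * S.val1 X Y S.base x - S.val1 X Y S.base y₁ - S.val1 X Y S.base y₂)
      = 2 * (S.cap S.base / (S.val X Y S.base) ^ 2 * S.val1 X Y S.base x)
        - S.cap S.base / (S.val X Y S.base) ^ 2 * S.val1 X Y S.base y₁
        - S.cap S.base / (S.val X Y S.base) ^ 2 * S.val1 X Y S.base y₂ := by ring
  rw [h8] at hb
  linarith

end round

end Sys

end Pool.Agent.Helper340.Crit12
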