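import Mathlib
import Pool.Agent.Helper340.Board

set_option autoImplicit false
set_option linter.unusedVariables false
set_option linter.unusedSectionVars false

namespace Pool.Agent.Helper340.Start

open Finset Pool.Agent.Helper340.Criterion Pool.Agent.Helper340.Cliques Pool.Agent.Helper340.Board

lemma one_add_pow_le {q : ℕ} (hq : 1 ≤ q) {x : ℝ} (hx0 : 0 ≤ x) (hx : x * q ≤ 1) (m : ℕ) (hm : m ≤ q) :
    (1 + x) ^ m ≤ 3 := by
  have h1 : (1 + x) ^ m ≤ Real.exp (x * m) := by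
    calc (1 + x) ^ m ≤ (Real.exp x) ^ m := by
          apply pow_le_pow_left₀ (by linarith)
          have := Real.add_one_le_exp x
          linarith
      _ = Real.exp (x * m) := by rw [← Real.exp_nat_mul]; ring_nf
  refine h1.trans ?_
  have h2 : x * m ≤ 1 := by
    have : (m : ℝ) ≤ q := by exact_mod_cast hm
    nlinarith
  calc Real.exp (x * m) ≤ Real.exp 1 := Real.exp_le_exp.mpr h2
    _ ≤ 3 := by linarith [Real.exp_one_lt_d9]

lemma kap_le {q s : ℕ} (hq3 : 3 ≤ q) (h3 : 3 * q ≤ 2 ^ s) :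
    kap q (16 ^ s) s ≤ tt q (16 ^ s) * (648 * (q : ℝ) ^ 3 / ((16 : ℝ) ^ s) ^ 3) := by
  unfold kap tt
  push_cast
  set n : ℝ := (16 : ℝ) ^ s with hn
  have hnpos : 0 < n := by positivity
  have h8 : (8 : ℝ) ^ s * 2 ^ s = n := by rw [hn, ← mul_pow]; norm_num
  have h2pos : (0 : ℝ) < 2 ^ s := by positivity
  have e1 : n + 3 * (8 : ℝ) ^ s = n * (1 + 3 / 2 ^ s) := by
    rw [← h8]; field_simp
  have e2 : (1 + 3 / (2 : ℝ) ^ s) ^ (q - 3) ≤ 3 := by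
    apply one_add_pow_le (q := q) (by omega) (by positivity) _ _ (by omega)
    rw [div_mul_eq_mul_div, div_le_one h2pos]
    exact_mod_cast h3
  have e3 : n ^ (q - 3) * n ^ 3 = n ^ q := by rw [← pow_add]; congr 1; omega
  have e4 : (q.choose 3 : ℝ) ≤ (q : ℝ) ^ 3 := by exact_mod_cast Nat.choose_le_pow q 3
  rw [e1, mul_pow]
  set P := (prs (Finset.univ : Finset (Fin q))).card
  have hP : (0 : ℝ) < (1 / 2) ^ P := by positivity
  rw [← e3]
  have e5 : n ^ (q - 3) * n ^ 3 * (1 / 2 : ℝ) ^ P * (648 * (q : ℝ) ^ 3 / n ^ 3)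
      = (1 / 2 : ℝ) ^ P * ((q : ℝ) ^ 3 * (8 * (27 * (n ^ (q - 3) * 3)))) := by
    field_simp; ring
  rw [e5]
  apply mul_le_mul_of_nonneg_left _ hP.le
  apply mul_le_mul e4 _ (by positivity) (by positivity)
  have : n ^ (q - 3) * (1 + 3 / 2 ^ s) ^ (q - 3) ≤ n ^ (q - 3) * 3 :=
    mul_le_mul_of_nonneg_left e2 (by positivity)
  linarith

lemma start_pos {V : Type*} [LinearOrder V] {q s : ℕ} (v : Fin q → Fin (16 ^ s) → V)
    (hm : ∀ i j a b, i < j → v i a < v j b) (hi : ∀ i a b, v i a = v i b → a = b)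
    (hq3 : 3 ≤ q) (hq : q + 2 ≤ 6 * s) (h3 : 3 * q ≤ 2 ^ s)
    (hbig : (256 * 648 ^ 3 : ℝ) * (q : ℝ) ^ 17 < (16 : ℝ) ^ s) (k : ℕ)
    (hk : (k : ℝ) ≤ ((q : ℝ) * 16 ^ s) ^ 2) :
    ∃ δ : ℝ, 0 < δ ∧ 0 < pot (cl v) δ k ∅ ∅ := by
  set n : ℝ := (16 : ℝ) ^ s with hn
  have hnpos : 0 < n := by positivity
  have hqpos : (0 : ℝ) < q := by
    have : 0 < q := by omega
    exact_mod_cast this
  set t : ℝ := tt q (16 ^ s) with ht
  have htpos : 0 < t := by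
    rw [ht]; unfold tt; positivity
  refine ⟨t / (4 * (q * n) ^ 2), by positivity, ?_⟩
  unfold pot
  rw [TF_empty v hm hi, ← ht]
  have hTG : TG (cl v) ∅ ∅ ≤ t * (t * (648 * (q : ℝ) ^ 3 / n ^ 3)) ^ 3 := by
    refine (TG_empty_le v hm hi s hq).trans ?_
    rw [← ht]
    apply mul_le_mul_of_nonneg_left _ htpos.le
    apply pow_le_pow_left₀
    · unfold kap; positivity
    · exact kap_le hq3 h3
  have hTG0 := TG_nonneg (cl v) (∅ : Finset (V × V)) ∅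
  have h1 : (k : ℝ) * (TG (cl v) ∅ ∅ / (t / (4 * (q * n) ^ 2)) ^ 3 + t / (4 * (q * n) ^ 2))
      ≤ (q * n) ^ 2 * (t * (t * (648 * (q : ℝ) ^ 3 / n ^ 3)) ^ 3 / (t / (4 * (q * n) ^ 2)) ^ 3
          + t / (4 * (q * n) ^ 2)) := by
    apply mul_le_mul hk _ (by positivity) (by positivity)
    have : TG (cl v) ∅ ∅ / (t / (4 * (q * n) ^ 2)) ^ 3 ≤
      t * (t * (648 * (q : ℝ) ^ 3 / n ^ 3)) ^ 3 / (t / (4 * (q * n) ^ 2)) ^ 3 :=
      div_le_div_of_nonneg_right hTG (by positivity)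
    linarith
  have h2 : (q * n) ^ 2 * (t * (t * (648 * (q : ℝ) ^ 3 / n ^ 3)) ^ 3 / (t / (4 * (q * n) ^ 2)) ^ 3
          + t / (4 * (q * n) ^ 2)) = t * ((64 * 648 ^ 3) * (q : ℝ) ^ 17 / n) + t / 4 := by
    field_simp; ring
  rw [h2] at h1
  have h4 : (64 * 648 ^ 3 : ℝ) * (q : ℝ) ^ 17 / n < 1 / 4 := by
    rw [div_lt_iff₀ hnpos]; linarith
  nlinarith

end Pool.Agent.Helper340.Start
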