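import Mathlib
import Pool.Agent.Helper340.Start

set_option autoImplicit false
set_option linter.unusedVariables false
set_option linter.unusedSectionVars false

namespace Pool.Agent.Helper340.Game

open Finset Pool.Agent.Helper340.Criterion Pool.Agent.Helper340.Cliques Pool.Agent.Helper340.Board

/-- The red-or-white win alternatives of one coalition turn. -/
def Closed (N q : ℕ) (S : Set (Set (Fin N × Fin N) × Set (Fin N × Fin N) × Set (Fin N × Fin N))) : Prop :=
  ∀ R W B : Set (Fin N × Fin N),
        ((∃ e f : Fin N × Fin N, e.1 < e.2 ∧ f.1 < f.2 ∧ e ≠ f ∧ e ∉ R ∧ e ∉ W ∧ e ∉ B ∧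
            f ∉ R ∧ f ∉ W ∧ f ∉ B ∧
            ((∃ K : Finset (Fin N), K.card = q ∧
                ∀ x ∈ K, ∀ y ∈ K, x < y → (x, y) ∈ insert e R) ∨
             (∃ K : Finset (Fin N), K.card = q ∧
                ∀ x ∈ K, ∀ y ∈ K, x < y → (x, y) ∈ insert f W) ∨
             ((∃ g : Fin N × Fin N, g.1 < g.2 ∧ g ∉ R ∧ g ∉ W ∧ g ∉ B ∧ g ≠ e ∧ g ≠ f) ∧
              ∀ g : Fin N × Fin N, g.1 < g.2 → g ∉ R → g ∉ W → g ∉ B → g ≠ e → g ≠ f →
                (insert e R, insert f W, insert g B) ∈ S))) ∨
         (∃ e : Fin N × Fin N, e.1 < e.2 ∧ e ∉ R ∧ e ∉ W ∧ e ∉ B ∧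
            (∀ f : Fin N × Fin N, f.1 < f.2 → f ∉ R → f ∉ W → f ∉ B → f = e) ∧
            ((∃ K : Finset (Fin N), K.card = q ∧
                ∀ x ∈ K, ∀ y ∈ K, x < y → (x, y) ∈ insert e R) ∨
             (∃ K : Finset (Fin N), K.card = q ∧
                ∀ x ∈ K, ∀ y ∈ K, x < y → (x, y) ∈ insert e W)))) →
        (R, W, B) ∈ S

section
variable {N q n : ℕ} (v : Fin q → Fin n → Fin N) (hm : ∀ i j a b, i < j → v i a < v j b)
  (hi : ∀ i a b, v i a = v i b → a = b)
include hm hi

lemma clique_of_subset (φ : Fin q → Fin n) (R : Set (Fin N × Fin N)) (h : ↑(cl v φ) ⊆ R) :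
    ∃ K : Finset (Fin N), K.card = q ∧ ∀ x ∈ K, ∀ y ∈ K, x < y → (x, y) ∈ R := by
  refine ⟨Finset.univ.image (fun i => v i (φ i)), ?_, ?_⟩
  · rw [Finset.card_image_of_injective, Finset.card_univ, Fintype.card_fin]
    intro i j hij
    exact (v_eq v hm hi hij).1
  · intro x hx y hy hxy
    simp only [mem_image, mem_univ, true_and] at hx hy
    obtain ⟨i, rfl⟩ := hx
    obtain ⟨j, rfl⟩ := hy
    apply h
    rw [Finset.mem_coe, mem_cl]
    refine ⟨i, j, ?_, rfl⟩
    rcases lt_trichotomy i j with hij | hij | hij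
    · exact hij
    · subst hij; exact absurd hxy (lt_irrefl _)
    · exact absurd (hm j i (φ j) (φ i) hij) (lt_asymm hxy)

/-- The coalition wins from every position with positive potential, provided the outside board
`Wb` is large enough to absorb the white moves. -/
theorem coalition_wins (D Wb : Finset (Fin N × Fin N)) (hD : ∀ e ∈ D, e.1 < e.2)
    (hWb : ∀ e ∈ Wb, e.1 < e.2) (hdis : Disjoint D Wb) (hA : ∀ φ, cl v φ ⊆ D)
    {δ : ℝ} (hδ : 0 < δ)
    (S : Set (Set (Fin N × Fin N) × Set (Fin N × Fin N) × Set (Fin N × Fin N)))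
    (hS : Closed N q S) :
    ∀ k : ℕ, ∀ R W B X Y : Finset (Fin N × Fin N), X ⊆ R → 
      (∀ e ∈ D \ (X ∪ Y), e ∉ R ∧ e ∉ W ∧ e ∉ B) → (D \ (X ∪ Y)).card = k →
      0 < pot (cl v) δ k X Y → 2 * k + 2 ≤ (Wb \ (R ∪ W ∪ B)).card →
      ((R : Set (Fin N × Fin N)), (W : Set (Fin N × Fin N)), (B : Set (Fin N × Fin N))) ∈ S := by
  intro k
  induction k using Nat.strong_induction_on with
  | _ k ih =>
  intro R W B X Y hXR hfree hcard hpot hW
  rcases Nat.eq_zero_or_pos k with hk0 | hkpos
  · -- the red board is exhausted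
    subst hk0
    obtain ⟨φ, hφ⟩ := finish (cl v) D hA X Y hcard hpot
    have h2 : 1 < (Wb \ (R ∪ W ∪ B)).card := by omega
    obtain ⟨e, he, f, hf, hef⟩ := Finset.one_lt_card.mp h2
    simp only [mem_sdiff, mem_union, not_or] at he hf
    apply hS
    left
    refine ⟨e, f, hWb e he.1, hWb f hf.1, hef, ?_, ?_, ?_, ?_, ?_, ?_, Or.inl ?_⟩
    · simpa using he.2.1.1
    · simpa using he.2.1.2
    · simpa using he.2.2
    · simpa using hf.2.1.1
    · simpa using hf.2.1.2
    · simpa using hf.2.2
    · apply clique_of_subset v hm hi φ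
      intro z hz
      exact Set.mem_insert_of_mem _ (Finset.mem_coe.mpr (hXR (hφ hz)))
  · obtain ⟨k', rfl⟩ : ∃ k', k = k' + 1 := ⟨k - 1, by omega⟩
    obtain ⟨x, hx, hstep, hlast⟩ := step (cl v) D hδ X Y k' hcard hpot
    have hxfree := hfree x hx
    have hxD : x ∈ D := (Finset.mem_sdiff.mp hx).1
    have h2 : 1 < (Wb \ (R ∪ W ∪ B)).card := by omega
    obtain ⟨f, hf, g0, hg0, hfg⟩ := Finset.one_lt_card.mp h2
    have hf' := hf
    have hg0' := hg0
    simp only [mem_sdiff, mem_union, not_or] at hf' hg0'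
    have hDW : ∀ z ∈ D, ∀ w ∈ Wb, z ≠ w := by
      intro z hz w hw h
      subst h
      exact (Finset.disjoint_left.mp hdis hz) hw
    have hxf : x ≠ f := hDW x hxD f hf'.1
    apply hS
    left
    refine ⟨x, f, hD x hxD, hWb f hf'.1, hxf, ?_, ?_, ?_, ?_, ?_, ?_, Or.inr (Or.inr ⟨?_, ?_⟩)⟩
    · simpa using hxfree.1
    · simpa using hxfree.2.1
    · simpa using hxfree.2.2
    · simpa using hf'.2.1.1
    · simpa using hf'.2.1.2
    · simpa using hf'.2.2
    · refine ⟨g0, hWb g0 hg0'.1, ?_, ?_, ?_, (hDW x hxD g0 hg0'.1).symm, hfg.symm⟩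
      · simpa using hg0'.2.1.1
      · simpa using hg0'.2.1.2
      · simpa using hg0'.2.2
    · intro g hglt hgR hgW hgB hgx hgf
      rw [← Finset.coe_insert, ← Finset.coe_insert, ← Finset.coe_insert]
      have hWcard : 2 * k' + 2 ≤ (Wb \ (insert x R ∪ insert f W ∪ insert g B)).card := by
        have hsub : Wb \ (R ∪ W ∪ B) ⊆ (Wb \ (insert x R ∪ insert f W ∪ insert g B)) ∪ {f, g} := by
          intro z hz
          simp only [mem_sdiff, mem_union, mem_insert, mem_singleton, not_or] at hz ⊢
          have hzx : z ≠ x := (hDW x hxD z hz.1).symm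
          by_cases h1 : z = f
          · right; left; exact h1
          · by_cases h3 : z = g
            · right; right; exact h3
            · left
              exact ⟨hz.1, ⟨⟨hzx, hz.2.1.1⟩, ⟨h1, hz.2.1.2⟩⟩, ⟨h3, hz.2.2⟩⟩
        have h3 := (Finset.card_le_card hsub).trans (Finset.card_union_le _ _)
        have h4 : ({f, g} : Finset (Fin N × Fin N)).card ≤ 2 := Finset.card_le_two
        omega
      have hXR' : insert x X ⊆ insert x R := Finset.insert_subset_insert x hXR
      by_cases hU : ∃ y ∈ D \ (X ∪ Y), y ≠ x ∧ (g ∈ D \ (X ∪ Y) → y = g)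
      · obtain ⟨y, hy, hyx, hyg⟩ := hU
        have hcard' : (D \ (insert x X ∪ insert y Y)).card = k' - 1 ∧ 1 ≤ k' := by
          have e1 : D \ (insert x X ∪ insert y Y) = ((D \ (X ∪ Y)).erase x).erase y := by
            ext z
            simp only [mem_sdiff, mem_union, mem_insert, mem_erase, not_or]
            tauto
          have hy' : y ∈ (D \ (X ∪ Y)).erase x := Finset.mem_erase.mpr ⟨hyx, hy⟩
          rw [e1, Finset.card_erase_of_mem hy', Finset.card_erase_of_mem hx, hcard]
          have : 0 < ((D \ (X ∪ Y)).erase x).card := Finset.card_pos.mpr ⟨y, hy'⟩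
          rw [Finset.card_erase_of_mem hx, hcard] at this
          omega
        apply ih (k' - 1) (by omega) (insert x R) (insert f W) (insert g B) (insert x X) (insert y Y)
          hXR' _ hcard'.1 (hstep y hy hyx (k' - 1) (by omega)) (by omega)
        intro e he
        simp only [mem_sdiff, mem_union, mem_insert, not_or] at he
        obtain ⟨heD, ⟨hex, heX⟩, hey, heY⟩ := he
        have heU : e ∈ D \ (X ∪ Y) := by
          simp only [mem_sdiff, mem_union, not_or]; exact ⟨heD, heX, heY⟩
        have hef := hfree e heU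
        simp only [mem_insert, not_or]
        refine ⟨⟨hex, hef.1⟩, ⟨hDW e heD f hf'.1, hef.2.1⟩, ⟨?_, hef.2.2⟩⟩
        intro heg
        subst heg
        exact hey (hyg heU).symm
      · -- no other free red-board point
        push Not at hU
        have hgU : g ∉ D \ (X ∪ Y) := by
          intro hg
          obtain ⟨_, h⟩ := hU g hg hgx
          exact h rfl
        have hk1 : k' = 0 := by
          by_contra hne
          have h1 : 1 < (D \ (X ∪ Y)).card := by omega
          obtain ⟨y, hy, hyx⟩ := Finset.exists_mem_ne h1 x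
          exact hgU (hU y hy hyx).1
        subst hk1
        have e1 : D \ (insert x X ∪ Y) = ∅ := by
          have e2 : D \ (insert x X ∪ Y) = (D \ (X ∪ Y)).erase x := by
            ext z
            simp only [mem_sdiff, mem_union, mem_insert, mem_erase, not_or]
            tauto
          rw [e2, ← Finset.card_eq_zero, Finset.card_erase_of_mem hx, hcard]
        apply ih 0 (by omega) (insert x R) (insert f W) (insert g B) (insert x X) Y
          hXR' _ (by rw [e1]; rfl) (hlast rfl) (by omega)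
        intro e he
        rw [e1] at he
        exact absurd he (Finset.notMem_empty e)

end

/-- concrete vertex map -/
def vt {q n N : ℕ} (h : q * n ≤ N) (i : Fin q) (a : Fin n) : Fin N :=
  ⟨i.val * n + a.val, by
    have h1 : i.val + 1 ≤ q := i.isLt
    have h2 : (i.val + 1) * n ≤ q * n := Nat.mul_le_mul_right n h1
    have h3 := a.isLt
    rw [Nat.add_mul, Nat.one_mul] at h2
    omega⟩

lemma vt_lt {q n N : ℕ} (h : q * n ≤ N) (i : Fin q) (a : Fin n) : (vt h i a).val < q * n := by
  have h1 : i.val + 1 ≤ q := i.isLt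
  have h2 : (i.val + 1) * n ≤ q * n := Nat.mul_le_mul_right n h1
  have h3 := a.isLt
  rw [Nat.add_mul, Nat.one_mul] at h2
  show i.val * n + a.val < q * n
  omega

lemma vt_mono {q n N : ℕ} (h : q * n ≤ N) (i j : Fin q) (a b : Fin n) (hij : i < j) :
    vt h i a < vt h j b := by
  show i.val * n + a.val < j.val * n + b.val
  have h1 : i.val + 1 ≤ j.val := hij
  have h2 : (i.val + 1) * n ≤ j.val * n := Nat.mul_le_mul_right n h1
  have h3 := a.isLt
  rw [Nat.add_mul, Nat.one_mul] at h2
  omega

lemma vt_inj {q n N : ℕ} (h : q * n ≤ N) (i : Fin q) (a b : Fin n) (hab : vt h i a = vt h i b) :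
    a = b := by
  have : i.val * n + a.val = i.val * n + b.val := congrArg Fin.val hab
  ext
  omega

theorem wins_param (q s M : ℕ) (hM : M = q * 16 ^ s) (hq3 : 3 ≤ q) (hq : q + 2 ≤ 6 * s)
    (h3 : 3 * q ≤ 2 ^ s)
    (hbig : (256 * 648 ^ 3 : ℝ) * (q : ℝ) ^ 17 < (16 : ℝ) ^ s) 
    (S : Set (Set (Fin (4 * M) × Fin (4 * M)) × Set (Fin (4 * M) × Fin (4 * M)) ×
      Set (Fin (4 * M) × Fin (4 * M))))
    (hS : Closed (4 * M) q S) : (∅, ∅, ∅) ∈ S := by
  have hMpos : 2 ≤ M := by
    have : 1 ≤ 16 ^ s := Nat.one_le_pow _ _ (by norm_num)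
    nlinarith
  have hle : q * 16 ^ s ≤ 4 * M := by omega
  set v := vt (n := 16 ^ s) hle with hv
  have hm := vt_mono (n := 16 ^ s) hle
  have hi := vt_inj (n := 16 ^ s) hle
  set D : Finset (Fin (4 * M) × Fin (4 * M)) :=
    Finset.univ.filter (fun e => e.1 < e.2 ∧ e.2.val < M) with hD
  set Wb : Finset (Fin (4 * M) × Fin (4 * M)) :=
    Finset.univ.filter (fun e => e.1.val < M ∧ M ≤ e.2.val) with hWb
  have hDcard : D.card ≤ M * M := by
    have hsub : D ⊆ (Finset.univ.filter (fun x : Fin (4 * M) => x.val < M)) ×ˢ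
        (Finset.univ.filter (fun x : Fin (4 * M) => x.val < M)) := by
      intro e he
      simp only [hD, mem_filter, mem_univ, true_and, mem_product] at he ⊢
      have : e.1.val < e.2.val := he.1
      exact ⟨by omega, he.2⟩
    refine (Finset.card_le_card hsub).trans ?_
    rw [Finset.card_product]
    have hc : (Finset.univ.filter (fun x : Fin (4 * M) => x.val < M)).card ≤ M := by
      have : (Finset.univ.filter (fun x : Fin (4 * M) => x.val < M)).card
          = ((Finset.univ.filter (fun x : Fin (4 * M) => x.val < M)).image Fin.val).card :=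
        (Finset.card_image_of_injective _ Fin.val_injective).symm
      rw [this]
      refine (Finset.card_le_card (t := Finset.range M) ?_).trans (by simp)
      intro z hz
      simp only [mem_image, mem_filter, mem_univ, true_and, mem_range] at hz ⊢
      obtain ⟨x, hx, rfl⟩ := hz
      exact hx
    exact Nat.mul_le_mul hc hc
  have hWcard : 3 * (M * M) ≤ Wb.card := by
    have hinj : Function.Injective (fun p : Fin M × Fin (3 * M) =>
        ((⟨p.1.val, by omega⟩, ⟨M + p.2.val, by omega⟩) : Fin (4 * M) × Fin (4 * M))) := by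
      rintro ⟨a, b⟩ ⟨c, d⟩ h
      simp only [Prod.mk.injEq, Fin.mk.injEq] at h
      ext
      · exact h.1
      · have := h.2; simp only; omega
    have hsub : (Finset.univ : Finset (Fin M × Fin (3 * M))).image (fun p =>
        ((⟨p.1.val, by omega⟩, ⟨M + p.2.val, by omega⟩) : Fin (4 * M) × Fin (4 * M))) ⊆ Wb := by
      intro z hz
      simp only [mem_image, mem_univ, true_and] at hz
      obtain ⟨p, rfl⟩ := hz
      simp only [hWb, mem_filter, mem_univ, true_and]
      exact ⟨p.1.isLt, by simp⟩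
    have := Finset.card_le_card hsub
    rw [Finset.card_image_of_injective _ hinj, Finset.card_univ, Fintype.card_prod,
      Fintype.card_fin, Fintype.card_fin] at this
    nlinarith
  have hdis : Disjoint D Wb := by
    rw [Finset.disjoint_left]
    intro e he he'
    simp only [hD, hWb, mem_filter, mem_univ, true_and] at he he'
    omega
  have hA : ∀ φ, cl v φ ⊆ D := by
    intro φ e he
    obtain ⟨i, j, hij, rfl⟩ := mem_cl.mp he
    simp only [hD, mem_filter, mem_univ, true_and]
    refine ⟨hm i j _ _ hij, ?_⟩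
    have h5 := vt_lt hle j (φ j)
    rw [← hM] at h5
    exact h5
  have hk : (D.card : ℝ) ≤ ((q : ℝ) * 16 ^ s) ^ 2 := by
    have : (D.card : ℝ) ≤ ((M * M : ℕ) : ℝ) := by exact_mod_cast hDcard
    refine this.trans (le_of_eq ?_)
    rw [hM]; push_cast; ring
  obtain ⟨δ, hδ, hpot⟩ := Start.start_pos v hm hi hq3 hq h3 hbig D.card hk
  have := coalition_wins v hm hi D Wb (by intro e he; exact (Finset.mem_filter.mp he).2.1)
    (by
      intro e he
      have := (Finset.mem_filter.mp he).2
      show e.1.val < e.2.val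
      omega) hdis hA hδ S hS D.card ∅ ∅ ∅ ∅ ∅ (by simp) (by simp) (by simp) hpot
    (by simp only [Finset.union_empty, Finset.sdiff_empty]; nlinarith)
  simpa using this

end Pool.Agent.Helper340.Game
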