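import Mathlib
import Pool.Agent.Helper340.Crit12

set_option autoImplicit false
set_option linter.unusedVariables false
set_option linter.unusedSectionVars false

namespace Pool.Agent.Helper340.Play12

open Finset Pool.Agent.Helper340.Crit12

/-- Maker (to move, one point per turn) can force that at the end of the play his set has `goal`;
Breaker claims two points per turn (or all the remaining points, if fewer than two remain). -/
inductive Forces {E : Type*} [DecidableEq E] (Bd : Finset E) (goal : Finset E → Prop) :
    Finset E → Finset E → Prop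
  | done {M B : Finset E} (h0 : Bd \ (M ∪ B) = ∅) (hg : goal M) : Forces Bd goal M B
  | move {M B : Finset E} (x : E) (hx : x ∈ Bd \ (M ∪ B))
      (h : ∀ R ⊆ (Bd \ (M ∪ B)).erase x, R.card = min 2 ((Bd \ (M ∪ B)).erase x).card →
        Forces Bd goal (insert x M) (B ∪ R)) : Forces Bd goal M B

section
variable {E : Type*} [DecidableEq E] {Bd : Finset E} {goal : Finset E → Prop}

lemma forces_of_goal (hmono : ∀ M M' : Finset E, M ⊆ M' → goal M → goal M') :
    ∀ (k : ℕ) (M B : Finset E), (Bd \ (M ∪ B)).card = k → goal M → Forces Bd goal M B := by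
  intro k
  induction k using Nat.strong_induction_on with
  | _ k ih =>
    intro M B hk hg
    by_cases h0 : Bd \ (M ∪ B) = ∅
    · exact Forces.done h0 hg
    · obtain ⟨x, hx⟩ := Finset.nonempty_iff_ne_empty.mpr h0
      refine Forces.move x hx ?_
      intro R hR hcard
      refine ih _ ?_ _ _ rfl (hmono _ _ (Finset.subset_insert x M) hg)
      rw [← hk]
      apply Finset.card_lt_card
      refine ⟨?_, ?_⟩
      · intro y hy
        simp only [mem_sdiff, mem_union, mem_insert, not_or] at hy ⊢
        exact ⟨hy.1, hy.2.1.2, hy.2.2.1⟩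
      · intro hcon
        have := hcon hx
        simp at this

variable {Φ L : Type*} [DecidableEq Φ] (S : Sys E Φ L)

theorem forces_of_potential (P₀ : Finset E) (hP : P₀ ⊆ Bd) (hA : ∀ φ, S.A φ ⊆ P₀)
    (hmono : ∀ M M' : Finset E, M ⊆ M' → goal M → goal M')
    (hgoal : ∀ φ M, S.A φ ⊆ M → goal M)
    (herr : (P₀.card : ℝ) * S.err ≤ 1 / 4) :
    ∀ (k : ℕ) (X Y U M B : Finset E), U.card = k → k ≤ P₀.card → P₀ ⊆ X ∪ Y ∪ U →
      Disjoint U X → X ⊆ M → U ⊆ Bd \ (M ∪ B) → 0 < S.val X Y S.base →
      -(9 / 4 : ℝ) - ((P₀.card : ℝ) - k) * S.err ≤ S.J X Y →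
      Forces Bd goal M B := by
  intro k
  induction k using Nat.strong_induction_on with
  | _ k ih =>
    intro X Y U M B hk hkT hcov hUX hXM hUfree hpos hJ
    have herr0 := S.err_nonneg
    have hJ' : -(5 / 2 : ℝ) ≤ S.J X Y := by
      have h1 : ((P₀.card : ℝ) - k) * S.err ≤ (P₀.card : ℝ) * S.err := by
        apply mul_le_mul_of_nonneg_right _ herr0
        have : (0 : ℝ) ≤ k := Nat.cast_nonneg k
        linarith
      linarith
    have hPsi1 := S.Psi_ge_one X Y
    have hcap := S.cap_pos S.base
    have hq : 0 < S.cap S.base / S.val X Y S.base := div_pos hcap hpos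
    have hPsi : S.Psi X Y ≤ 3 := by
      unfold Sys.J at hJ'
      linarith
    have hF : S.cap S.base / 2 ≤ S.val X Y S.base := by
      have h2 : S.cap S.base / S.val X Y S.base ≤ 3 / 2 := by
        unfold Sys.J at hJ'
        linarith
      rw [div_le_iff₀ hpos] at h2
      linarith
    by_cases hk3 : k < 3
    · -- finish
      have hcaps := S.caps_of_Psi hPsi
      have hsum : ∑ u ∈ U, S.val1 X Y S.base u < S.val X Y S.base := by
        have h1 : ∑ u ∈ U, S.val1 X Y S.base u ≤ ∑ u ∈ U, S.e1 * S.cap S.base :=
          Finset.sum_le_sum (fun u _ => S.val1_le hcaps _ u)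
        rw [Finset.sum_const, nsmul_eq_mul, hk] at h1
        have h2 : (k : ℝ) ≤ 2 := by
          have : k ≤ 2 := by omega
          exact_mod_cast this
        have h3 : S.e1 * S.cap S.base ≤ S.cap S.base / 16 := by
          have := S.e1_le
          nlinarith
        have h4 : 0 ≤ S.e1 * S.cap S.base := mul_nonneg S.e1_nonneg hcap.le
        nlinarith
      have hex : ∃ φ ∈ S.mem S.base, Disjoint (S.A φ) Y ∧ ∀ u ∈ U, u ∉ S.A φ := by
        by_contra hcon
        push Not at hcon
        have hle : S.val X Y S.base ≤ ∑ u ∈ U, S.val1 X Y S.base u := by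
          unfold Sys.val Sys.val1
          rw [Finset.sum_comm]
          apply Finset.sum_le_sum
          intro φ hφ
          by_cases hd : Disjoint (S.A φ) Y
          · obtain ⟨u, huU, huA⟩ := hcon φ hφ hd
            have : (if u ∈ S.red S.base φ then wt X Y (S.A φ) (S.red S.base φ) else 0)
                ≤ ∑ u ∈ U, if u ∈ S.red S.base φ then wt X Y (S.A φ) (S.red S.base φ) else 0 := by
              apply Finset.single_le_sum
                (f := fun u => if u ∈ S.red S.base φ then wt X Y (S.A φ) (S.red S.base φ) else 0)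
              · intro i _
                split_ifs
                · exact wt_nonneg _ _ _ _
                · exact le_refl _
              · exact huU
            refine le_trans ?_ this
            rw [if_pos]
            rw [S.red_base]; exact huA
          · have : wt X Y (S.A φ) (S.red S.base φ) = 0 := by
              unfold wt; rw [if_neg hd]
            rw [this]
            simp
        linarith
      obtain ⟨φ, _, hd, hu⟩ := hex
      have hsub : S.A φ ⊆ X := by
        intro w hw
        have h1 := hcov (hA φ hw)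
        rw [mem_union, mem_union] at h1
        rcases h1 with (h1 | h1) | h1
        · exact h1
        · exact absurd h1 (Finset.disjoint_left.mp hd hw)
        · exact absurd hw (hu w h1)
      exact forces_of_goal hmono _ M B rfl (hgoal φ M (hsub.trans hXM))
    · push Not at hk3
      have hne : U.Nonempty := by rw [← Finset.card_pos]; omega
      obtain ⟨x, hxU, hxmax⟩ := Finset.exists_max_image U (fun u => S.j X Y u) hne
      have hxfree := hUfree hxU
      refine Forces.move x hxfree ?_
      intro R hR hRc
      have hRcard : (R ∩ U).card ≤ 2 := by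
        have h1 : (R ∩ U).card ≤ R.card := Finset.card_le_card Finset.inter_subset_left
        have h2 : R.card ≤ 2 := by rw [hRc]; exact min_le_left _ _
        omega
      have hRsub : R ∩ U ⊆ U.erase x := by
        intro y hy
        rw [mem_inter] at hy
        have := hR hy.1
        rw [mem_erase] at this ⊢
        exact ⟨this.1, hy.2⟩
      have hUe : 2 ≤ (U.erase x).card := by
        rw [Finset.card_erase_of_mem hxU]; omega
      obtain ⟨t, ht1, ht2, ht3⟩ := Finset.exists_subsuperset_card_eq hRsub hRcard hUe
      obtain ⟨y₁, y₂, hy, rfl⟩ := Finset.card_eq_two.mp ht3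
      have hy1 : y₁ ∈ U.erase x := ht2 (by simp)
      have hy2 : y₂ ∈ U.erase x := ht2 (by simp)
      rw [mem_erase] at hy1 hy2
      have hxX : x ∉ X := Finset.disjoint_left.mp hUX hxU
      obtain ⟨hpos', hJr⟩ := S.J_round (X := X) (Y := Y) (x := x) (y₁ := y₁) (y₂ := y₂) hxX
        (Ne.symm hy1.1) (Ne.symm hy2.1) hy hPsi hF (hxmax y₁ hy1.2) (hxmax y₂ hy2.2)
      have hcardU : (U \ {x, y₁, y₂}).card = k - 3 := by
        rw [Finset.card_sdiff_of_subset]
        · rw [hk]
          congr 1
          rw [Finset.card_insert_of_notMem, Finset.card_pair hy]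
          simp only [mem_insert, mem_singleton, not_or]
          exact ⟨Ne.symm hy1.1, Ne.symm hy2.1⟩
        · intro w hw
          simp only [mem_insert, mem_singleton] at hw
          rcases hw with rfl | rfl | rfl
          · exact hxU
          · exact hy1.2
          · exact hy2.2
      refine ih (k - 3) (by omega) (insert x X) (insert y₁ (insert y₂ Y)) (U \ {x, y₁, y₂})
        (insert x M) (B ∪ R) hcardU (by omega) ?_ ?_ ?_ ?_ hpos' ?_
      · intro w hw
        have := hcov hw
        simp only [mem_union, mem_insert, mem_sdiff, mem_singleton] at this ⊢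
        tauto
      · rw [Finset.disjoint_left] at hUX ⊢
        intro w hw
        simp only [mem_insert, mem_sdiff, mem_singleton, not_or] at hw ⊢
        exact ⟨hw.2.1, hUX hw.1⟩
      · exact Finset.insert_subset_insert x hXM
      · intro w hw
        rw [mem_sdiff] at hw
        have h1 := hUfree hw.1
        have h2 : w ∉ R := by
          intro hwR
          have := ht1 (mem_inter.mpr ⟨hwR, hw.1⟩)
          apply hw.2
          simp only [mem_insert, mem_singleton] at this ⊢
          tauto
        have h3 : w ≠ x := by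
          intro h; apply hw.2; simp [h]
        simp only [mem_sdiff, mem_union, mem_insert, not_or] at h1 ⊢
        exact ⟨h1.1, ⟨h3, h1.2.1⟩, h1.2.2, h2⟩
      · refine le_trans ?_ hJr
        have h1 : (((k - 3 : ℕ) : ℝ)) = (k : ℝ) - 3 := by
          rw [Nat.cast_sub hk3]; norm_num
        rw [h1]
        nlinarith

/-- Start of the game. -/
theorem forces_start (P₀ : Finset E) (hP : P₀ ⊆ Bd) (hA : ∀ φ, S.A φ ⊆ P₀)
    (hmono : ∀ M M' : Finset E, M ⊆ M' → goal M → goal M')
    (hgoal : ∀ φ M, S.A φ ⊆ M → goal M)
    (herr : (P₀.card : ℝ) * S.err ≤ 1 / 4)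
    (hbase : S.val ∅ ∅ S.base = S.cap S.base)
    (hz : ∀ κ ∈ S.K, S.lam * S.z ∅ ∅ κ ≤ 1 / 8) :
    Forces Bd goal ∅ ∅ := by
  have hcap := S.cap_pos S.base
  refine forces_of_potential S P₀ hP hA hmono hgoal herr P₀.card ∅ ∅ P₀ ∅ ∅ rfl le_rfl
    (by simp) (by simp) (le_refl _) (by simpa using hP) (by rw [hbase]; exact hcap) ?_
  unfold Sys.J
  rw [hbase, div_self hcap.ne']
  have hPsi : S.Psi ∅ ∅ ≤ 5 / 4 := by
    unfold Sys.Psi
    rw [div_le_iff₀ S.K_card_pos]
    calc ∑ κ ∈ S.K, Real.exp (S.lam * S.z ∅ ∅ κ) ≤ ∑ κ ∈ S.K, (5 / 4 : ℝ) := by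
          apply Finset.sum_le_sum
          intro κ hκ
          have h1 := hz κ hκ
          have h0 : 0 ≤ S.lam * S.z ∅ ∅ κ :=
            mul_nonneg (by linarith [S.lam_ge]) (S.z_nonneg _ _ _)
          have h2 : |S.lam * S.z ∅ ∅ κ| ≤ 1 := by
            rw [abs_le]; constructor <;> linarith
          have h3 := Real.abs_exp_sub_one_sub_id_le h2
          rw [abs_le] at h3
          nlinarith [h3.2]
      _ = 5 / 4 * (S.K.card : ℝ) := by
          rw [Finset.sum_const, nsmul_eq_mul]; ring
  simp only [sub_self, zero_mul, sub_zero]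
  linarith

end

end Pool.Agent.Helper340.Play12
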