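import Mathlib
import Pool.Agent.Helper340.Crit12
import Pool.Agent.Helper340.Play12

set_option autoImplicit false
set_option linter.unusedVariables false
set_option linter.unusedSectionVars false

namespace Pool.Agent.Helper340.Hyper3

open Finset Pool.Agent.Helper340.Crit12 Pool.Agent.Helper340.Play12

variable {V : Type*} [DecidableEq V] {q n : ℕ}

/-- the image of `J` on the transversal `φ` -/
def tri (e : Fin q × Fin n → V) (φ : Fin q → Fin n) (J : Finset (Fin q)) : Finset V :=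
  J.image (fun i => e (i, φ i))

/-- all triples of the transversal `φ` -/
def tset (e : Fin q × Fin n → V) (φ : Fin q → Fin n) : Finset (Finset V) :=
  (powersetCard 3 (univ : Finset (Fin q))).image (tri e φ)

abbrev Lev (q n : ℕ) := Finset (Fin q) × (Fin q → Fin n)

def lmem (κ : Lev q n) : Finset (Fin q → Fin n) :=
  univ.filter (fun φ => ∀ i ∈ κ.1, φ i = κ.2 i)

def lred (e : Fin q × Fin n → V) (κ : Lev q n) (φ : Fin q → Fin n) : Finset (Finset V) :=
  (powersetCard 3 κ.1ᶜ).image (tri e φ)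

lemma tri_inj {e : Fin q × Fin n → V} (he : Function.Injective e) {φ φ' : Fin q → Fin n}
    {J J' : Finset (Fin q)} (h : tri e φ J = tri e φ' J') : J = J' ∧ ∀ i ∈ J, φ i = φ' i := by
  have key : ∀ {φ φ' : Fin q → Fin n} {J J' : Finset (Fin q)}, tri e φ J = tri e φ' J' →
      ∀ i ∈ J, i ∈ J' ∧ φ i = φ' i := by
    intro φ φ' J J' h i hi
    have h1 : e (i, φ i) ∈ tri e φ J := mem_image_of_mem (fun i => e (i, φ i)) hi
    rw [h] at h1
    unfold tri at h1
    rw [mem_image] at h1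
    obtain ⟨i', hi', h2⟩ := h1
    have h3 := he h2
    rw [Prod.mk.injEq] at h3
    obtain ⟨rfl, h4⟩ := h3
    exact ⟨hi', h4.symm⟩
  refine ⟨?_, fun i hi => (key h i hi).2⟩
  ext i
  exact ⟨fun hi => (key h i hi).1, fun hi => (key h.symm i hi).1⟩

lemma lred_sub (e : Fin q × Fin n → V) (κ : Lev q n) (φ : Fin q → Fin n) :
    lred e κ φ ⊆ tset e φ := by
  unfold lred tset
  exact image_subset_image (powersetCard_mono (subset_univ _))

lemma lred_anti (e : Fin q × Fin n → V) {κ κ' : Lev q n} (h : κ.1 ⊆ κ'.1) (φ : Fin q → Fin n) :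
    lred e κ' φ ⊆ lred e κ φ := by
  unfold lred
  exact image_subset_image (powersetCard_mono (compl_subset_compl.mpr h))

lemma mem_lred {e : Fin q × Fin n → V} {κ : Lev q n} {φ : Fin q → Fin n} {u : Finset V} :
    u ∈ lred e κ φ ↔ ∃ J : Finset (Fin q), Disjoint J κ.1 ∧ J.card = 3 ∧ tri e φ J = u := by
  unfold lred
  rw [mem_image]
  constructor
  · rintro ⟨J, hJ, h⟩
    rw [mem_powersetCard] at hJ
    exact ⟨J, (subset_compl_iff_disjoint_right).mp hJ.1, hJ.2, h⟩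
  · rintro ⟨J, h1, h2, h3⟩
    exact ⟨J, mem_powersetCard.mpr ⟨(subset_compl_iff_disjoint_right).mpr h1, h2⟩, h3⟩

lemma dom_one {e : Fin q × Fin n → V} (he : Function.Injective e) (κ : Lev q n)
    (φ₀ : Fin q → Fin n) (h0 : φ₀ ∈ lmem κ) (u : Finset V) (hu : u ∈ lred e κ φ₀) :
    ∃ κ' : Lev q n, κ'.1.card = κ.1.card + 3 ∧
      ∀ φ ∈ lmem κ, u ∈ lred e κ φ → φ ∈ lmem κ' ∧ lred e κ' φ ⊆ lred e κ φ := by
  obtain ⟨J, hJd, hJc, hJu⟩ := mem_lred.mp hu
  refine ⟨(κ.1 ∪ J, φ₀), ?_, ?_⟩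
  · rw [card_union_of_disjoint hJd.symm, hJc]
  · intro φ hφ huφ
    obtain ⟨J', hJd', hJc', hJu'⟩ := mem_lred.mp huφ
    obtain ⟨rfl, hag⟩ := tri_inj he (hJu'.trans hJu.symm)
    refine ⟨?_, lred_anti e (subset_union_left) φ⟩
    unfold lmem at hφ h0 ⊢
    simp only [mem_filter, mem_univ, true_and, mem_union] at hφ h0 ⊢
    intro i hi
    rcases hi with hi | hi
    · rw [hφ i hi, h0 i hi]
    · exact hag i hi

lemma dom_two {e : Fin q × Fin n → V} (he : Function.Injective e) (κ : Lev q n)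
    (φ₀ : Fin q → Fin n) (h0 : φ₀ ∈ lmem κ) (u : Finset V) (hu : u ∈ lred e κ φ₀)
    (v : Finset V) (hv : v ∈ lred e κ φ₀) (huv : u ≠ v) :
    ∃ κ' : Lev q n, κ.1.card + 4 ≤ κ'.1.card ∧
      ∀ φ ∈ lmem κ, u ∈ lred e κ φ → v ∈ lred e κ φ →
        φ ∈ lmem κ' ∧ lred e κ' φ ⊆ lred e κ φ := by
  obtain ⟨J, hJd, hJc, hJu⟩ := mem_lred.mp hu
  obtain ⟨T, hTd, hTc, hTv⟩ := mem_lred.mp hv
  have hJT : J ≠ T := by
    rintro rfl; exact huv (hJu.symm.trans hTv)
  refine ⟨(κ.1 ∪ (J ∪ T), φ₀), ?_, ?_⟩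
  · rw [card_union_of_disjoint (disjoint_union_right.mpr ⟨hJd.symm, hTd.symm⟩)]
    have h4 : 4 ≤ (J ∪ T).card := by
      by_contra hlt
      push Not at hlt
      have h1 : J ⊆ J ∪ T := subset_union_left
      have h2 : T ⊆ J ∪ T := subset_union_right
      have h3 : J = J ∪ T := eq_of_subset_of_card_le h1 (by omega)
      have h4 : T = J ∪ T := eq_of_subset_of_card_le h2 (by omega)
      exact hJT (h3.trans h4.symm)
    omega
  · intro φ hφ huφ hvφ
    obtain ⟨J', hJd', hJc', hJu'⟩ := mem_lred.mp huφ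
    obtain ⟨T', hTd', hTc', hTv'⟩ := mem_lred.mp hvφ
    obtain ⟨rfl, hag⟩ := tri_inj he (hJu'.trans hJu.symm)
    obtain ⟨rfl, hag'⟩ := tri_inj he (hTv'.trans hTv.symm)
    refine ⟨?_, lred_anti e (subset_union_left) φ⟩
    unfold lmem at hφ h0 ⊢
    simp only [mem_filter, mem_univ, true_and, mem_union] at hφ h0 ⊢
    intro i hi
    rcases hi with hi | hi | hi
    · rw [hφ i hi, h0 i hi]
    · exact hag i hi
    · exact hag' i hi

lemma card_lmem (κ : Lev q n) : (lmem κ).card = n ^ (q - κ.1.card) := by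
  have h : lmem κ = Fintype.piFinset (fun i => if i ∈ κ.1 then {κ.2 i} else (univ : Finset (Fin n))) := by
    ext φ
    unfold lmem
    simp only [mem_filter, mem_univ, true_and, Fintype.mem_piFinset]
    constructor
    · intro h i
      split_ifs with hi
      · rw [mem_singleton]; exact h i hi
      · exact mem_univ _
    · intro h i hi
      have := h i
      rw [if_pos hi, mem_singleton] at this
      exact this
  rw [h, Fintype.card_piFinset]
  have h2 : ∀ i : Fin q, (if i ∈ κ.1 then ({κ.2 i} : Finset (Fin n)) else univ).card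
      = if i ∈ κ.1 then 1 else n := by
    intro i; split_ifs <;> simp
  rw [prod_congr rfl (fun i _ => h2 i), prod_ite]
  simp only [prod_const_one, one_mul, prod_const]
  congr 1
  have : (univ.filter (fun i => i ∉ κ.1)) = κ.1ᶜ := by
    ext i; simp
  rw [this, card_compl, Fintype.card_fin]

lemma card_lred {e : Fin q × Fin n → V} (he : Function.Injective e) (κ : Lev q n)
    (φ : Fin q → Fin n) : (lred e κ φ).card = (q - κ.1.card).choose 3 := by
  unfold lred
  rw [card_image_of_injective, card_powersetCard, card_compl, Fintype.card_fin]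
  intro J J' h
  exact (tri_inj he h).1

lemma choose_three_le (q : ℕ) : ∀ t ≤ q, q.choose 3 ≤ (q - t).choose 3 + t * q ^ 2 := by
  intro t
  induction t with
  | zero => intro _; simp
  | succ t ih =>
    intro ht
    have h1 := ih (by omega)
    have h2 : q - t = (q - (t + 1)) + 1 := by omega
    rw [h2, Nat.choose_succ_succ] at h1
    have h3 : (q - (t + 1)).choose 2 ≤ q ^ 2 := by
      refine (Nat.choose_le_pow _ 2).trans (Nat.pow_le_pow_left (by omega) 2)
    have h4 : (t + 1) * q ^ 2 = t * q ^ 2 + q ^ 2 := by ring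
    simp only [Nat.succ_eq_add_one] at h1
    norm_num at h1
    omega

section numeric

noncomputable def Qr (q : ℕ) : ℝ := (2 : ℝ) ^ (q ^ 2)

def mm (q : ℕ) : ℕ := 2 ^ (20 * q ^ 2)

def nn (q : ℕ) : ℕ := (mm q) ^ 5

noncomputable def rho (q : ℕ) : ℝ := 1 / (mm q : ℝ) ^ 4

noncomputable def F0 (q : ℕ) : ℝ := (nn q : ℝ) ^ q * (1 / 3 : ℝ) ^ (q.choose 3)

noncomputable def lamq (q : ℕ) : ℝ := 103 * (q : ℝ) ^ 3

variable {q : ℕ}

lemma mm_eq (q : ℕ) : (mm q : ℝ) = Qr q ^ 20 := by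
  unfold mm Qr
  push_cast
  rw [← pow_mul]; ring_nf

lemma Qr_ge (hq : 3 ≤ q) : (512 : ℝ) ≤ Qr q := by
  unfold Qr
  have h1 : 9 ≤ q ^ 2 := by nlinarith
  calc (512 : ℝ) = 2 ^ 9 := by norm_num
    _ ≤ 2 ^ (q ^ 2) := pow_le_pow_right₀ (by norm_num) h1

lemma q_le_Qr (q : ℕ) : (q : ℝ) ≤ Qr q := by
  unfold Qr
  have h1 : q ≤ q ^ 2 := Nat.le_self_pow (by norm_num) q
  have h2 : q < 2 ^ q := Nat.lt_two_pow_self
  have h3 : 2 ^ q ≤ 2 ^ (q ^ 2) := Nat.pow_le_pow_right (by norm_num) h1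
  have : q ≤ 2 ^ (q ^ 2) := by omega
  exact_mod_cast this

lemma lamq_le (hq : 3 ≤ q) : lamq q ≤ Qr q ^ 4 := by
  have h1 := Qr_ge hq
  have h2 := q_le_Qr q
  unfold lamq
  have h3 : (q : ℝ) ^ 3 ≤ Qr q ^ 3 := pow_le_pow_left₀ (Nat.cast_nonneg q) h2 3
  have h4 : 0 ≤ Qr q ^ 3 := by positivity
  have h5 : Qr q ^ 4 = Qr q * Qr q ^ 3 := by ring
  rw [h5]
  nlinarith

lemma lamq_ge (hq : 3 ≤ q) : 1 ≤ lamq q := by
  unfold lamq
  have h : (3 : ℝ) ≤ q := by exact_mod_cast hq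
  have : (3 : ℝ) ^ 3 ≤ (q : ℝ) ^ 3 := pow_le_pow_left₀ (by norm_num) h 3
  linarith

lemma rho_eq (q : ℕ) : rho q = 1 / Qr q ^ 80 := by
  unfold rho
  rw [mm_eq, ← pow_mul]

lemma Qr_pos (q : ℕ) : 0 < Qr q := by unfold Qr; positivity

lemma two_pow_le_exp (k : ℕ) : (2 : ℝ) ^ k ≤ Real.exp k := by
  have h : (2 : ℝ) ≤ Real.exp 1 := by
    have := Real.add_one_le_exp (1 : ℝ)
    linarith
  calc (2 : ℝ) ^ k ≤ (Real.exp 1) ^ k := pow_le_pow_left₀ (by norm_num) h k
    _ = Real.exp k := by rw [← Real.exp_nat_mul]; simp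

lemma nn_eq (q : ℕ) : nn q = 2 ^ (100 * q ^ 2) := by
  unfold nn mm
  rw [← pow_mul]; ring_nf

lemma nn_pos (q : ℕ) : 0 < nn q := by rw [nn_eq]; positivity

lemma F0_pos (q : ℕ) : 0 < F0 q := by
  unfold F0
  have : (0 : ℝ) < nn q := by exact_mod_cast nn_pos q
  positivity

lemma rho_pos (q : ℕ) : 0 < rho q := by
  rw [rho_eq]
  have := Qr_pos q
  positivity

lemma rho_le_one (hq : 3 ≤ q) : rho q ≤ 1 := by
  rw [rho_eq]
  have h1 := Qr_ge hq
  rw [div_le_one (by have := Qr_pos q; positivity)]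
  exact one_le_pow₀ (by linarith)

lemma rho_le (hq : 3 ≤ q) : rho q ≤ 1 / 512 := by
  rw [rho_eq]
  have h1 := Qr_ge hq
  apply one_div_le_one_div_of_le (by norm_num)
  calc (512 : ℝ) ≤ Qr q := h1
    _ = Qr q ^ 1 := (pow_one _).symm
    _ ≤ Qr q ^ 80 := pow_le_pow_right₀ (by linarith) (by norm_num)

lemma rho_Q (hq : 3 ≤ q) : Qr q ^ 4 * rho q ≤ 1 / 512 := by
  rw [rho_eq]
  have h1 := Qr_ge hq
  have hp := Qr_pos q
  have h2 : Qr q ^ 4 * (1 / Qr q ^ 80) = 1 / Qr q ^ 76 := by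
    field_simp
  rw [h2]
  apply one_div_le_one_div_of_le (by norm_num)
  calc (512 : ℝ) ≤ Qr q := h1
    _ = Qr q ^ 1 := (pow_one _).symm
    _ ≤ Qr q ^ 76 := pow_le_pow_right₀ (by linarith) (by norm_num)

lemma K_bound (hq : 3 ≤ q) :
    3 * (((univ : Finset (Lev q (nn q))).filter (fun κ => κ.1.Nonempty)).card : ℝ)
      ≤ Real.exp (lamq q) := by
  have h1 : ((univ : Finset (Lev q (nn q))).filter (fun κ => κ.1.Nonempty)).card
      ≤ 2 ^ q * (nn q) ^ q := by
    refine (card_le_univ _).trans (le_of_eq ?_)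
    simp [Lev]
  have h2 : 3 * (2 ^ q * (nn q) ^ q) ≤ 2 ^ (103 * q ^ 3) := by
    rw [nn_eq, ← pow_mul]
    calc 3 * (2 ^ q * 2 ^ (100 * q ^ 2 * q)) ≤ 2 ^ 2 * (2 ^ q * 2 ^ (100 * q ^ 2 * q)) := by
          apply Nat.mul_le_mul_right; norm_num
      _ = 2 ^ (2 + (q + 100 * q ^ 2 * q)) := by rw [← pow_add, ← pow_add]
      _ ≤ 2 ^ (103 * q ^ 3) := by
          apply Nat.pow_le_pow_right (by norm_num)
          have h3 : q ≤ q ^ 3 := Nat.le_self_pow (by norm_num) q
          have h4 : 100 * q ^ 2 * q = 100 * q ^ 3 := by ring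
          omega
  have h3 : 3 * ((univ : Finset (Lev q (nn q))).filter (fun κ => κ.1.Nonempty)).card
      ≤ 2 ^ (103 * q ^ 3) := (Nat.mul_le_mul_left 3 h1).trans h2
  have h4 : (3 * (((univ : Finset (Lev q (nn q))).filter (fun κ => κ.1.Nonempty)).card : ℝ))
      ≤ (2 : ℝ) ^ (103 * q ^ 3) := by exact_mod_cast h3
  refine h4.trans ((two_pow_le_exp _).trans (le_of_eq ?_))
  unfold lamq
  push_cast
  rfl

end numeric

section system
variable {q : ℕ}

/-- the system of levels -/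
noncomputable def theSys (hq : 3 ≤ q) (e : Fin q × Fin (nn q) → V) (he : Function.Injective e) :
    Sys (Finset V) (Fin q → Fin (nn q)) (Lev q (nn q)) where
  A := tset e
  mem := lmem
  red := lred e
  K := univ.filter (fun κ => κ.1.Nonempty)
  base := (∅, fun _ => ⟨0, nn_pos q⟩)
  cap := fun κ => F0 q * rho q ^ κ.1.card
  e1 := rho q ^ 3
  e2 := rho q ^ 4
  lam := lamq q
  red_sub := lred_sub e
  red_base := by
    intro φ
    unfold lred tset
    simp
  cap_pos := by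
    intro κ
    exact mul_pos (F0_pos q) (pow_pos (rho_pos q) _)
  K_ne := by
    refine ⟨({⟨0, by omega⟩}, fun _ => ⟨0, nn_pos q⟩), ?_⟩
    rw [mem_filter]
    exact ⟨mem_univ _, singleton_nonempty _⟩
  one := by
    intro κ φ₀ h0 u hu
    obtain ⟨κ', hc, hdom⟩ := dom_one he κ φ₀ h0 u hu
    refine ⟨κ', ?_, ?_, hdom⟩
    · rw [mem_filter]
      refine ⟨mem_univ _, ?_⟩
      rw [← card_pos, hc]; omega
    · rw [hc]
      apply le_of_eq
      ring
  two := by
    intro κ φ₀ h0 u hu v hv huv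
    obtain ⟨κ', hc, hdom⟩ := dom_two he κ φ₀ h0 u hu v hv huv
    refine ⟨κ', ?_, ?_, hdom⟩
    · rw [mem_filter]
      refine ⟨mem_univ _, ?_⟩
      rw [← card_pos]; omega
    · have h1 : rho q ^ κ'.1.card ≤ rho q ^ (κ.1.card + 4) :=
        pow_le_pow_of_le_one (rho_pos q).le (rho_le_one hq) hc
      have h2 := mul_le_mul_of_nonneg_left h1 (F0_pos q).le
      refine h2.trans (le_of_eq ?_)
      ring
  lam_ge := lamq_ge hq
  e2_nonneg := pow_nonneg (rho_pos q).le _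
  e2_le := pow_le_pow_of_le_one (rho_pos q).le (rho_le_one hq) (by norm_num)
  e1_le := by
    have h1 := rho_le hq
    have h0 := rho_pos q
    have h2 : rho q ^ 3 ≤ rho q ^ 1 :=
      pow_le_pow_of_le_one h0.le (rho_le_one hq) (by norm_num)
    rw [pow_one] at h2
    linarith
  lam_e1 := by
    have h1 := rho_Q hq
    have h0 := rho_pos q
    have hl := lamq_le hq
    have hl1 := lamq_ge hq
    have h2 : rho q ^ 3 ≤ rho q ^ 1 :=
      pow_le_pow_of_le_one h0.le (rho_le_one hq) (by norm_num)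
    rw [pow_one] at h2
    have h3 : lamq q * rho q ^ 3 ≤ Qr q ^ 4 * rho q :=
      mul_le_mul hl h2 (by positivity) (by positivity)
    nlinarith
  K_le := K_bound hq

end system

end Pool.Agent.Helper340.Hyper3
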