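import Mathlib
import Pool.Agent.Helper340.Crit12
import Pool.Agent.Helper340.Play12
import Pool.Agent.Helper340.Hyper3

set_option autoImplicit false
set_option linter.unusedVariables false
set_option linter.unusedSectionVars false

namespace Pool.Agent.Helper340.Hyper3

open Finset Pool.Agent.Helper340.Crit12 Pool.Agent.Helper340.Play12

variable {V : Type*} [DecidableEq V] {q : ℕ}

lemma wt_empty {E : Type*} [DecidableEq E] (s a : Finset E) : wt ∅ ∅ s a = (1 / 3 : ℝ) ^ a.card := by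
  unfold wt
  simp

lemma val_start (hq : 3 ≤ q) (e : Fin q × Fin (nn q) → V) (he : Function.Injective e)
    (κ : Lev q (nn q)) :
    (theSys hq e he).val ∅ ∅ κ
      = (nn q : ℝ) ^ (q - κ.1.card) * (1 / 3 : ℝ) ^ ((q - κ.1.card).choose 3) := by
  unfold Sys.val
  have h : ∀ φ ∈ (theSys hq e he).mem κ,
      wt ∅ ∅ ((theSys hq e he).A φ) ((theSys hq e he).red κ φ)
        = (1 / 3 : ℝ) ^ ((q - κ.1.card).choose 3) := by
    intro φ _
    rw [wt_empty]
    congr 1
    exact card_lred he κ φ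
  rw [sum_congr rfl h, sum_const, nsmul_eq_mul]
  congr 1
  have : ((theSys hq e he).mem κ).card = (nn q) ^ (q - κ.1.card) := card_lmem κ
  rw [this]
  push_cast
  rfl

lemma base_start (hq : 3 ≤ q) (e : Fin q × Fin (nn q) → V) (he : Function.Injective e) :
    (theSys hq e he).val ∅ ∅ (theSys hq e he).base
      = (theSys hq e he).cap (theSys hq e he).base := by
  rw [val_start]
  unfold theSys F0
  simp

lemma start_ineq (hq : 3 ≤ q) (t : ℕ) (ht : 1 ≤ t) (htq : t ≤ q) :
    (nn q : ℝ) ^ (q - t) * (1 / 3 : ℝ) ^ ((q - t).choose 3) * Qr q ^ 18 ≤ F0 q * rho q ^ t := by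
  have hQ := Qr_ge hq
  have hQp := Qr_pos q
  have hn0 : (0 : ℝ) < nn q := by exact_mod_cast nn_pos q
  have hnm : (nn q : ℝ) = Qr q ^ 100 := by
    unfold nn; push_cast; rw [mm_eq, ← pow_mul]
  -- n^q = n^(q-t) n^t
  have h1 : (nn q : ℝ) ^ q = (nn q : ℝ) ^ (q - t) * (nn q : ℝ) ^ t := by
    rw [← pow_add]; congr 1; omega
  have h2 : (nn q : ℝ) ^ t * rho q ^ t = (Qr q ^ 20) ^ t := by
    rw [← mul_pow]
    congr 1
    rw [hnm, rho_eq]
    field_simp
  have h3 : (1 / 3 : ℝ) ^ ((q - t).choose 3 + t * q ^ 2) ≤ (1 / 3 : ℝ) ^ (q.choose 3) :=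
    pow_le_pow_of_le_one (by norm_num) (by norm_num) (choose_three_le q t htq)
  have h4 : (1 / 3 : ℝ) ^ ((q - t).choose 3 + t * q ^ 2)
      = (1 / 3 : ℝ) ^ ((q - t).choose 3) * ((1 / 3 : ℝ) ^ (q ^ 2)) ^ t := by
    rw [pow_add, mul_comm t, pow_mul]
  have h5 : Qr q ^ 18 ≤ ((1 / 3 : ℝ) ^ (q ^ 2) * Qr q ^ 20) ^ t := by
    have h6 : Qr q ^ 18 ≤ (1 / 3 : ℝ) ^ (q ^ 2) * Qr q ^ 20 := by
      have h7 : 1 ≤ (1 / 3 : ℝ) ^ (q ^ 2) * Qr q ^ 2 := by
        unfold Qr
        rw [← pow_mul, mul_comm (q ^ 2) 2, pow_mul, ← mul_pow]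
        apply one_le_pow₀
        norm_num
      calc Qr q ^ 18 = 1 * Qr q ^ 18 := (one_mul _).symm
        _ ≤ ((1 / 3 : ℝ) ^ (q ^ 2) * Qr q ^ 2) * Qr q ^ 18 :=
            mul_le_mul_of_nonneg_right h7 (by positivity)
        _ = (1 / 3 : ℝ) ^ (q ^ 2) * Qr q ^ 20 := by ring
    have h8 : (1 : ℝ) ≤ (1 / 3 : ℝ) ^ (q ^ 2) * Qr q ^ 20 :=
      le_trans (one_le_pow₀ (by linarith)) h6
    calc Qr q ^ 18 ≤ (1 / 3 : ℝ) ^ (q ^ 2) * Qr q ^ 20 := h6
      _ = ((1 / 3 : ℝ) ^ (q ^ 2) * Qr q ^ 20) ^ 1 := (pow_one _).symm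
      _ ≤ _ := pow_le_pow_right₀ h8 ht
  calc (nn q : ℝ) ^ (q - t) * (1 / 3 : ℝ) ^ ((q - t).choose 3) * Qr q ^ 18
      ≤ (nn q : ℝ) ^ (q - t) * (1 / 3 : ℝ) ^ ((q - t).choose 3)
          * ((1 / 3 : ℝ) ^ (q ^ 2) * Qr q ^ 20) ^ t :=
        mul_le_mul_of_nonneg_left h5 (by positivity)
    _ = (nn q : ℝ) ^ (q - t) * (Qr q ^ 20) ^ t
          * ((1 / 3 : ℝ) ^ ((q - t).choose 3) * ((1 / 3 : ℝ) ^ (q ^ 2)) ^ t) := by
        rw [mul_pow]; ring
    _ = (nn q : ℝ) ^ (q - t) * (Qr q ^ 20) ^ t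
          * (1 / 3 : ℝ) ^ ((q - t).choose 3 + t * q ^ 2) := by rw [h4]
    _ ≤ (nn q : ℝ) ^ (q - t) * (Qr q ^ 20) ^ t * (1 / 3 : ℝ) ^ (q.choose 3) :=
        mul_le_mul_of_nonneg_left h3 (by positivity)
    _ = F0 q * rho q ^ t := by
        unfold F0
        rw [← h2, h1]; ring

lemma z_start (hq : 3 ≤ q) (e : Fin q × Fin (nn q) → V) (he : Function.Injective e)
    (κ : Lev q (nn q)) (hκ : κ ∈ (theSys hq e he).K) :
    (theSys hq e he).lam * (theSys hq e he).z ∅ ∅ κ ≤ 1 / 8 := by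
  have hQ := Qr_ge hq
  have hQp := Qr_pos q
  have hne : κ.1.Nonempty := by
    have : κ ∈ (univ : Finset (Lev q (nn q))).filter (fun κ => κ.1.Nonempty) := hκ
    rw [mem_filter] at this
    exact this.2
  have ht : 1 ≤ κ.1.card := hne.card_pos
  have htq : κ.1.card ≤ q := by
    have := card_le_univ κ.1
    simpa using this
  have h1 := start_ineq hq κ.1.card ht htq
  have hz : (theSys hq e he).z ∅ ∅ κ ≤ 1 / Qr q ^ 18 := by
    unfold Sys.z
    rw [div_le_div_iff₀ ((theSys hq e he).cap_pos κ) (by positivity), val_start, one_mul]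
    exact h1
  have hl : (theSys hq e he).lam ≤ Qr q ^ 4 := lamq_le hq
  have hz0 := (theSys hq e he).z_nonneg ∅ ∅ κ
  calc (theSys hq e he).lam * (theSys hq e he).z ∅ ∅ κ ≤ Qr q ^ 4 * (1 / Qr q ^ 18) :=
        mul_le_mul hl hz hz0 (by positivity)
    _ = 1 / Qr q ^ 14 := by field_simp
    _ ≤ 1 / 8 := by
        apply one_div_le_one_div_of_le (by norm_num)
        calc (8 : ℝ) ≤ Qr q := by linarith
          _ = Qr q ^ 1 := (pow_one _).symm
          _ ≤ Qr q ^ 14 := pow_le_pow_right₀ (by linarith) (by norm_num)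

/-- the sub-board on which the virtual game is played -/
def subBoard (e : Fin q × Fin (nn q) → V) : Finset (Finset V) :=
  powersetCard 3 ((univ : Finset (Fin q × Fin (nn q))).image e)

lemma card_subBoard (e : Fin q × Fin (nn q) → V) (he : Function.Injective e) :
    ((subBoard e).card : ℝ) ≤ (q : ℝ) ^ 3 * (mm q : ℝ) ^ 15 := by
  have h1 : (subBoard e).card ≤ (q * nn q) ^ 3 := by
    unfold subBoard
    rw [card_powersetCard, card_image_of_injective _ he]
    refine (Nat.choose_le_pow _ 3).trans (le_of_eq ?_)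
    simp
  have h2 : (q * nn q) ^ 3 = q ^ 3 * (mm q) ^ 15 := by
    unfold nn
    ring
  rw [h2] at h1
  exact_mod_cast h1

lemma err_bound (hq : 3 ≤ q) (e : Fin q × Fin (nn q) → V) (he : Function.Injective e) :
    ((subBoard e).card : ℝ) * (theSys hq e he).err ≤ 1 / 4 := by
  have hQ := Qr_ge hq
  have hQp := Qr_pos q
  have h1 := card_subBoard e he
  have h2 : (q : ℝ) ^ 3 ≤ Qr q ^ 3 := pow_le_pow_left₀ (Nat.cast_nonneg q) (q_le_Qr q) 3
  have h3 : ((subBoard e).card : ℝ) ≤ Qr q ^ 303 := by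
    refine h1.trans ?_
    rw [mm_eq, ← pow_mul]
    calc (q : ℝ) ^ 3 * Qr q ^ (20 * 15) ≤ Qr q ^ 3 * Qr q ^ (20 * 15) :=
          mul_le_mul_of_nonneg_right h2 (by positivity)
      _ = Qr q ^ 303 := by ring
  have hl := lamq_le hq
  have hl1 := lamq_ge hq
  have h4 : (theSys hq e he).err ≤ 120 / Qr q ^ 316 := by
    have e1 : (theSys hq e he).err = 20 * lamq q * rho q ^ 4 + 100 * lamq q ^ 2 * (rho q ^ 3) ^ 2 := rfl
    rw [e1, rho_eq]
    have h5 : 20 * lamq q * (1 / Qr q ^ 80) ^ 4 ≤ 20 * Qr q ^ 4 * (1 / Qr q ^ 80) ^ 4 :=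
      mul_le_mul_of_nonneg_right (by linarith) (by positivity)
    have h6 : lamq q ^ 2 ≤ (Qr q ^ 4) ^ 2 := pow_le_pow_left₀ (by linarith) hl 2
    have h7 : 100 * lamq q ^ 2 * ((1 / Qr q ^ 80) ^ 3) ^ 2
        ≤ 100 * (Qr q ^ 4) ^ 2 * ((1 / Qr q ^ 80) ^ 3) ^ 2 :=
      mul_le_mul_of_nonneg_right (by linarith) (by positivity)
    have h8 : 20 * Qr q ^ 4 * (1 / Qr q ^ 80) ^ 4 = 20 / Qr q ^ 316 := by
      field_simp
    have h9 : 100 * (Qr q ^ 4) ^ 2 * ((1 / Qr q ^ 80) ^ 3) ^ 2 = 100 / Qr q ^ 472 := by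
      field_simp
    have h10 : 100 / Qr q ^ 472 ≤ 100 / Qr q ^ 316 := by
      apply div_le_div_of_nonneg_left (by norm_num) (by positivity)
      exact pow_le_pow_right₀ (by linarith) (by norm_num)
    have h11 : 20 / Qr q ^ 316 + 100 / Qr q ^ 316 = 120 / Qr q ^ 316 := by ring
    linarith
  have herr0 := (theSys hq e he).err_nonneg
  calc ((subBoard e).card : ℝ) * (theSys hq e he).err ≤ Qr q ^ 303 * (120 / Qr q ^ 316) :=
        mul_le_mul h3 h4 herr0 (by positivity)
    _ = 120 / Qr q ^ 13 := by field_simp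
    _ ≤ 1 / 4 := by
        rw [div_le_div_iff₀ (by positivity) (by norm_num)]
        have : Qr q ^ 1 ≤ Qr q ^ 13 := pow_le_pow_right₀ (by linarith) (by norm_num)
        rw [pow_one] at this
        linarith

/-- Maker wins the clique game on a large vertex set. -/
theorem clique_forces [Fintype V] (hq : 3 ≤ q) (hV : q * 2 ^ (100 * q ^ 2) ≤ Fintype.card V) :
    Forces (powersetCard 3 (univ : Finset V))
      (fun M => ∃ S : Finset V, S.card = q ∧ powersetCard 3 S ⊆ M) ∅ ∅ := by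
  have hcard : Fintype.card (Fin q × Fin (nn q)) ≤ Fintype.card V := by
    simp only [Fintype.card_prod, Fintype.card_fin]
    rw [nn_eq]; exact hV
  obtain ⟨e⟩ := Function.Embedding.nonempty_of_card_le hcard
  have he := e.injective
  refine forces_start (theSys hq e he) (subBoard e) ?_ ?_ ?_ ?_ (err_bound hq e he)
    (base_start hq e he) (z_start hq e he)
  · unfold subBoard
    exact powersetCard_mono (subset_univ _)
  · intro φ u hu
    have hu' : u ∈ tset e φ := hu
    unfold tset at hu'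
    rw [mem_image] at hu'
    obtain ⟨J, hJ, rfl⟩ := hu'
    rw [mem_powersetCard] at hJ
    unfold subBoard
    rw [mem_powersetCard]
    constructor
    · intro v hv
      unfold tri at hv
      rw [mem_image] at hv ⊢
      obtain ⟨i, _, rfl⟩ := hv
      exact ⟨(i, φ i), mem_univ _, rfl⟩
    · unfold tri
      rw [card_image_of_injective, hJ.2]
      intro i i' h
      have := he h
      rw [Prod.mk.injEq] at this
      exact this.1
  · rintro M M' hM ⟨S, hS1, hS2⟩
    exact ⟨S, hS1, hS2.trans hM⟩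
  · intro φ M hM
    have hinj : Function.Injective (fun i : Fin q => e (i, φ i)) := by
      intro i i' h
      have := he h
      rw [Prod.mk.injEq] at this
      exact this.1
    refine ⟨(univ : Finset (Fin q)).image (fun i => e (i, φ i)), ?_, ?_⟩
    · rw [card_image_of_injective _ hinj]; simp
    · intro T hT
      apply hM
      show T ∈ tset e φ
      rw [mem_powersetCard] at hT
      unfold tset
      rw [mem_image]
      refine ⟨univ.filter (fun i => e (i, φ i) ∈ T), ?_, ?_⟩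
      · rw [mem_powersetCard]
        refine ⟨subset_univ _, ?_⟩
        rw [← hT.2, ← card_image_of_injective _ hinj]
        congr 1
        ext v
        simp only [mem_image, mem_filter, mem_univ, true_and]
        constructor
        · rintro ⟨i, h1, rfl⟩; exact h1
        · intro hv
          have := hT.1 hv
          rw [mem_image] at this
          obtain ⟨i, _, rfl⟩ := this
          exact ⟨i, hv, rfl⟩
      · unfold tri
        ext v
        simp only [mem_image, mem_filter, mem_univ, true_and]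
        constructor
        · rintro ⟨i, h1, rfl⟩; exact h1
        · intro hv
          have := hT.1 hv
          rw [mem_image] at this
          obtain ⟨i, _, rfl⟩ := this
          exact ⟨i, hv, rfl⟩

end Pool.Agent.Helper340.Hyper3
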